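import Mathlib

set_option autoImplicit false

open ContinuousLinearMap Filter Topology

namespace Pool.Agent.U552.CommPair

variable {H : Type*} [NormedAddCommGroup H] [InnerProductSpace ℂ H]

/-- In a compact-operator situation: no infinite family of joint eigenvectors with distinct
eigenvalues for `S` and eigenvalues bounded away from zero for the compact operator `D`. -/
theorem no_infinite {S D : H →L[ℂ] H} (hD : IsCompactOperator D) (μ ν : ℕ → ℂ)
    (hμ : Function.Injective μ) (y : ℕ → H) (hy : ∀ n, y n ≠ 0) (hS : ∀ n, S (y n) = μ n • y n)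
    (hDy : ∀ n, D (y n) = ν n • y n) (ε : ℝ) (hε : 0 < ε) (hν : ∀ n, ε ≤ ‖ν n‖) : False := by
  have hli : LinearIndependent ℂ y := by
    refine Module.End.eigenvectors_linearIndependent' (S : Module.End ℂ H) μ hμ y ?_
    intro n
    rw [Module.End.hasEigenvector_iff]
    refine ⟨?_, hy n⟩
    rw [Module.End.mem_eigenspace_iff]
    exact hS n
  set z := InnerProductSpace.gramSchmidtNormed ℂ y with hz
  have hzo : Orthonormal ℂ z := InnerProductSpace.gramSchmidtNormed_orthonormal hli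
  -- `D` maps the span of the first vectors into itself
  have hspan : ∀ n, Submodule.span ℂ (z '' Set.Iio n) = Submodule.span ℂ (y '' Set.Iio n) := by
    intro n
    rw [hz, InnerProductSpace.span_gramSchmidtNormed, InnerProductSpace.span_gramSchmidt_Iio]
  have hspan' : ∀ n, Submodule.span ℂ (z '' Set.Iic n) = Submodule.span ℂ (y '' Set.Iic n) := by
    intro n
    rw [hz, InnerProductSpace.span_gramSchmidtNormed, InnerProductSpace.span_gramSchmidt_Iic]
  have hinv : ∀ n (c : ℂ), ∀ v ∈ Submodule.span ℂ (y '' Set.Iio n),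
      D v - c • v ∈ Submodule.span ℂ (y '' Set.Iio n) := by
    intro n c v hv
    induction hv using Submodule.span_induction with
    | mem x hx =>
      obtain ⟨k, hk, rfl⟩ := hx
      rw [hDy k, ← sub_smul]
      exact Submodule.smul_mem _ _ (Submodule.subset_span ⟨k, hk, rfl⟩)
    | zero => simp
    | add a b _ _ ha hb =>
      have : D (a + b) - c • (a + b) = (D a - c • a) + (D b - c • b) := by
        rw [map_add, smul_add]; abel
      rw [this]
      exact Submodule.add_mem _ ha hb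
    | smul t a _ ha =>
      have : D (t • a) - c • (t • a) = t • (D a - c • a) := by
        rw [map_smul, smul_sub, smul_comm c t a]
      rw [this]
      exact Submodule.smul_mem _ _ ha
  have hstep : ∀ n, D (z n) - ν n • z n ∈ Submodule.span ℂ (y '' Set.Iio n) := by
    intro n
    have h1 : z n ∈ Submodule.span ℂ (y '' Set.Iic n) := by
      rw [← hspan']
      exact Submodule.subset_span ⟨n, Set.mem_Iic.2 le_rfl, rfl⟩
    have h2 : y '' Set.Iic n = insert (y n) (y '' Set.Iio n) := by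
      rw [← Set.image_insert_eq, Set.Iio_insert]
    rw [h2, Submodule.mem_span_insert] at h1
    obtain ⟨c, w, hw, hzw⟩ := h1
    rw [hzw, map_add, map_smul, hDy n, smul_add, smul_comm c (ν n) (y n)]
    have : ν n • c • y n + D w - (ν n • c • y n + ν n • w) = D w - ν n • w := by abel
    rw [this]
    exact hinv n _ w hw
  have hsep : ∀ m n, m < n → ε ≤ ‖D (z n) - D (z m)‖ := by
    intro m n hmn
    have hzm : z m ∈ Submodule.span ℂ (y '' Set.Iio n) := by
      rw [← hspan]
      exact Submodule.subset_span ⟨m, Set.mem_Iio.2 hmn, rfl⟩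
    have hDm : D (z m) ∈ Submodule.span ℂ (y '' Set.Iio n) := by
      have := hinv n 0 _ hzm
      simpa using this
    have hu : (D (z n) - ν n • z n) - D (z m) ∈ Submodule.span ℂ (z '' Set.Iio n) := by
      rw [hspan]
      exact Submodule.sub_mem _ (hstep n) hDm
    have horth : inner ℂ (z n) ((D (z n) - ν n • z n) - D (z m)) = 0 := by
      have : ∀ v ∈ Submodule.span ℂ (z '' Set.Iio n), inner ℂ (z n) v = 0 := by
        intro v hv
        induction hv using Submodule.span_induction with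
        | mem x hx =>
          obtain ⟨k, hk, rfl⟩ := hx
          exact hzo.2 (ne_of_gt hk)
        | zero => simp
        | add a b _ _ ha hb => rw [inner_add_right, ha, hb, add_zero]
        | smul t a _ ha => rw [inner_smul_right, ha, mul_zero]
      exact this _ hu
    have h1 : inner ℂ (z n) (D (z n) - D (z m)) = ν n := by
      have e : D (z n) - D (z m) = ν n • z n + ((D (z n) - ν n • z n) - D (z m)) := by abel
      rw [e, inner_add_right, horth, inner_smul_right, inner_self_eq_norm_sq_to_K, hzo.1 n]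
      simp
    have h2 : ‖inner ℂ (z n) (D (z n) - D (z m))‖ ≤ ‖z n‖ * ‖D (z n) - D (z m)‖ :=
      norm_inner_le_norm _ _
    rw [h1, hzo.1 n, one_mul] at h2
    exact (hν n).trans h2
  obtain ⟨K, hK, hK'⟩ := hD.image_closedBall_subset_compact 1
  obtain ⟨w, -, ψ, hψ, hψw⟩ := hK.tendsto_subseq (x := fun n => D (z n))
    (fun n ↦ hK' ⟨z n, by simp [hzo.1 n], rfl⟩)
  have hc := hψw.cauchySeq
  rw [Metric.cauchySeq_iff'] at hc
  obtain ⟨N, hN⟩ := hc ε hε
  have h1 := hN (N + 1) (Nat.le_succ N)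
  have h2 := hsep (ψ N) (ψ (N + 1)) (hψ (Nat.lt_succ_self N))
  simp only [Function.comp] at h1
  rw [dist_eq_norm] at h1
  linarith

/-- No disc of joint eigenvectors with nonzero eigenvalues for the compact operator. -/
theorem no_disc {S D : H →L[ℂ] H} (hD : IsCompactOperator D) (δ : ℝ) (hδ : 0 < δ)
    (h : ∀ μ : ℂ, ‖μ‖ < δ → ∃ y : H, y ≠ 0 ∧ S y = μ • y ∧ ∃ ν : ℂ, ν ≠ 0 ∧ D y = ν • y) :
    False := by
  choose! y hy hS ν hν0 hν using h
  -- the set of real parameters
  set A : ℕ → Set ℝ := fun n => {t | t ∈ Set.Ioo 0 δ ∧ 1 / ((n : ℝ) + 1) ≤ ‖ν (t : ℂ)‖} with hA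
  have hnorm : ∀ t ∈ Set.Ioo 0 δ, ‖((t : ℝ) : ℂ)‖ < δ := by
    intro t ht
    rw [Complex.norm_real, Real.norm_of_nonneg ht.1.le]
    exact ht.2
  have hcover : Set.Ioo 0 δ ⊆ ⋃ n, A n := by
    intro t ht
    have h0 : 0 < ‖ν (t : ℂ)‖ := norm_pos_iff.2 (hν0 _ (hnorm t ht))
    obtain ⟨n, hn⟩ := exists_nat_one_div_lt h0
    exact Set.mem_iUnion.2 ⟨n, ht, hn.le⟩
  have hex : ∃ n, (A n).Infinite := by
    by_contra hcon
    push Not at hcon
    have hc : (⋃ n, A n).Countable := Set.countable_iUnion fun n => (hcon n).countable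
    have h1 : (Set.Ioo (0 : ℝ) δ).Countable := hc.mono hcover
    exact absurd (Cardinal.Real.Ioo_countable_iff.1 h1) (not_le.2 hδ)
  obtain ⟨n, hn⟩ := hex
  set e : ℕ ↪ A n := hn.natEmbedding
  have hmem : ∀ k, ((e k : ℝ)) ∈ Set.Ioo 0 δ := fun k => (e k).2.1
  refine no_infinite (S := S) hD (fun k => ((e k : ℝ) : ℂ)) (fun k => ν ((e k : ℝ) : ℂ)) ?_
    (fun k => y ((e k : ℝ) : ℂ)) (fun k => hy _ (hnorm _ (hmem k)))
    (fun k => hS _ (hnorm _ (hmem k))) (fun k => hν _ (hnorm _ (hmem k))) (1 / ((n : ℝ) + 1))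
    (by positivity) (fun k => (e k).2.2)
  intro a b hab
  have : ((e a : ℝ)) = (e b : ℝ) := Complex.ofReal_injective hab
  exact e.injective (Subtype.ext this)

/-- The core step. -/
theorem core {S R : H →L[ℂ] H} (hc : S * R = R * S) (hK : IsCompactOperator (S - R)) (c : ℝ)
    (hc0 : 0 < c) (hb : ∀ x, c * ‖x‖ ≤ ‖S x‖ + ‖R x‖) (δ : ℝ) (hδ : 0 < δ)
    (hker : ∀ μ : ℂ, ‖μ‖ < δ → FiniteDimensional ℂ ((S - μ • 1 : H →L[ℂ] H).ker) ∧
      (S - μ • 1 : H →L[ℂ] H).ker ≠ ⊥) : False := by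
  refine no_disc (S := S) (D := S - R) hK (min δ (c / 4)) (lt_min hδ (by positivity)) ?_
  intro μ hμ
  obtain ⟨hfd, hne⟩ := hker μ (hμ.trans_le (min_le_left _ _))
  have hμ2 : ‖μ‖ < c / 4 := hμ.trans_le (min_le_right _ _)
  have hmemker : ∀ x, x ∈ (S - μ • 1 : H →L[ℂ] H).ker ↔ S x = μ • x := by
    intro x
    rw [LinearMap.mem_ker]
    simp [sub_eq_zero]
  have hinv : ∀ x ∈ (S - μ • 1 : H →L[ℂ] H).ker,
      ((S - R : H →L[ℂ] H) : H →ₗ[ℂ] H) x ∈ (S - μ • 1 : H →L[ℂ] H).ker := by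
    intro x hx
    rw [hmemker] at hx ⊢
    have h1 : S (R x) = R (S x) := by
      have := DFunLike.congr_fun hc x
      simpa using this
    simp only [ContinuousLinearMap.coe_coe, sub_apply, map_sub, h1, hx,
      map_smul, smul_sub]
  let f : Module.End ℂ ((S - μ • 1 : H →L[ℂ] H).ker) :=
    (((S - R : H →L[ℂ] H) : H →ₗ[ℂ] H)).restrict hinv
  have : Nontrivial ((S - μ • 1 : H →L[ℂ] H).ker) :=
    Submodule.nontrivial_iff_ne_bot.2 hne
  obtain ⟨ν, hν⟩ := Module.End.exists_eigenvalue f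
  obtain ⟨v, hv⟩ := hν.exists_hasEigenvector
  have hv0 : (v : H) ≠ 0 := fun h => hv.2 (Subtype.ext h)
  have hv1 : f v = ν • v := Module.End.mem_eigenspace_iff.1 hv.1
  have hv2 : (S - R) (v : H) = ν • (v : H) := by
    exact congrArg Subtype.val hv1
  have hv3 : S (v : H) = μ • (v : H) := (hmemker _).1 v.2
  refine ⟨v, hv0, hv3, ν, ?_, hv2⟩
  rintro rfl
  rw [zero_smul, sub_apply, sub_eq_zero] at hv2
  have h1 := hb v
  rw [← hv2, hv3, norm_smul] at h1
  have h2 : 0 < ‖(v : H)‖ := norm_pos_iff.2 hv0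
  nlinarith

theorem finiteRank_compact {P : H →L[ℂ] H} (V : Submodule ℂ H) [FiniteDimensional ℂ V]
    (h : ∀ x, P x ∈ V) : IsCompactOperator P := by
  have h1 : IsCompactOperator (P.codRestrict V h) := by
    have : ProperSpace V := FiniteDimensional.proper ℂ V
    exact isCompactOperator_of_locallyCompactSpace_dom (P.codRestrict V h)
  have h2 := h1.clm_comp V.subtypeL
  exact h2

theorem fd_ker_one_add {K : H →L[ℂ] H} (hK : IsCompactOperator K) :
    FiniteDimensional ℂ (1 + K : H →L[ℂ] H).ker := by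
  set V := (1 + K : H →L[ℂ] H).ker with hV
  have hVc : IsClosed (V : Set H) := by
    rw [hV]
    exact ContinuousLinearMap.isClosed_ker _
  have hKV : ∀ x ∈ V, K x = -x := by
    intro x hx
    rw [hV, LinearMap.mem_ker] at hx
    have : x + K x = 0 := by simpa using hx
    exact eq_neg_of_add_eq_zero_right this
  have hinv : ∀ x ∈ V, (K : H →ₗ[ℂ] H) x ∈ V := by
    intro x hx
    have := hKV x hx
    simp only [ContinuousLinearMap.coe_coe, this]
    exact V.neg_mem hx
  have h1 := IsCompactOperator.restrict (f := (K : H →ₗ[ℂ] H)) hK hinv hVc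
  have h2 : IsCompactOperator (id : V → V) := by
    have h3 := h1.neg
    have h4 : (id : V → V) = -⇑((K : H →ₗ[ℂ] H).restrict hinv) := by
      funext x
      apply Subtype.ext
      simp [hKV x.1 x.2]
    rw [h4]
    exact h3
  exact isCompactOperator_id_iff_finiteDimensional.1 h2

variable [CompleteSpace H]

theorem isUnit_one_add {K : H →L[ℂ] H} (hK : IsCompactOperator K)
    (hi : Function.Injective (1 + K : H →L[ℂ] H)) : IsUnit (1 + K : H →L[ℂ] H) := by
  rcases hK.hasEigenvalue_or_mem_resolventSet (μ := -1) (by norm_num) with h | h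
  · exfalso
    obtain ⟨v, hv⟩ := h.exists_hasEigenvector
    have h1 : K v = (-1 : ℂ) • v := Module.End.mem_eigenspace_iff.1 hv.1
    apply hv.2
    apply hi
    simp [h1]
  · rw [spectrum.mem_resolventSet_iff] at h
    have : (1 + K : H →L[ℂ] H) = -(algebraMap ℂ (H →L[ℂ] H) (-1) - K) := by
      rw [map_neg, map_one]
      abel
    rw [this]
    exact h.neg

theorem bddBelow_adjoint {T : H →L[ℂ] H} (hT : Function.Surjective T) :
    ∃ c > 0, ∀ z, c * ‖z‖ ≤ ‖adjoint T z‖ := by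
  obtain ⟨C, hC, h⟩ := T.exists_preimage_norm_le hT
  refine ⟨C⁻¹, by positivity, fun z => ?_⟩
  obtain ⟨x, hx, hxn⟩ := h z
  rcases eq_or_ne z 0 with rfl | hz
  · simp
  have hz0 : 0 < ‖z‖ := norm_pos_iff.2 hz
  have h1 : (‖z‖ : ℝ) ^ 2 ≤ ‖x‖ * ‖adjoint T z‖ := by
    have e1 : inner ℂ x (adjoint T z) = ((‖z‖ : ℝ) : ℂ) ^ 2 := by
      rw [adjoint_inner_right, hx, inner_self_eq_norm_sq_to_K]
      rfl
    have e2 := norm_inner_le_norm (𝕜 := ℂ) x (adjoint T z)
    rw [e1, norm_pow, Complex.norm_real, norm_norm] at e2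
    exact e2
  have h2 : ‖z‖ ^ 2 ≤ C * ‖z‖ * ‖adjoint T z‖ :=
    h1.trans (by gcongr)
  have h3 : ‖z‖ ≤ C * ‖adjoint T z‖ := by
    have : ‖z‖ * ‖z‖ ≤ ‖z‖ * (C * ‖adjoint T z‖) := by nlinarith
    exact le_of_mul_le_mul_left this hz0
  calc C⁻¹ * ‖z‖ ≤ C⁻¹ * (C * ‖adjoint T z‖) := by gcongr
    _ = ‖adjoint T z‖ := by field_simp

theorem isUnit_of_coercive {S : H →L[ℂ] H} (c : ℝ) (hc : 0 < c)
    (h : ∀ x, c * ‖x‖ ^ 2 ≤ ‖inner ℂ (S x) x‖) : IsUnit S := by
  refine isUnit_of_forall_le_norm_inner_map S (c := ⟨c, hc.le⟩) hc fun x => ?_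
  have := h x
  change ‖x‖ ^ 2 * c ≤ _
  linarith

theorem rightInv {T : H →L[ℂ] H} (hT : Function.Surjective T) :
    ∃ L : H →L[ℂ] H, T * L = 1 := by
  obtain ⟨c, hc, h⟩ := bddBelow_adjoint hT
  have hu : IsUnit (T * adjoint T) := by
    refine isUnit_of_coercive (c ^ 2) (by positivity) fun x => ?_
    have e1 : inner ℂ ((T * adjoint T) x) x = ((‖adjoint T x‖ : ℝ) : ℂ) ^ 2 := by
      change inner ℂ (T (adjoint T x)) x = _
      rw [← adjoint_inner_right, inner_self_eq_norm_sq_to_K]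
      rfl
    rw [e1, norm_pow, Complex.norm_real, norm_norm, ← mul_pow]
    exact pow_le_pow_left₀ (by positivity) (h x) 2
  obtain ⟨u, hu⟩ := hu
  refine ⟨adjoint T * (↑u⁻¹ : H →L[ℂ] H), ?_⟩
  rw [← mul_assoc, ← hu, Units.mul_inv]

/-- A compact perturbation of a surjective operator with nontrivial finite-dimensional kernel has
a nontrivial finite-dimensional kernel near `0`. -/
theorem perturb {T K : H →L[ℂ] H} (hT : Function.Surjective T) (hfd : FiniteDimensional ℂ T.ker)
    (hne : T.ker ≠ ⊥) (hK : IsCompactOperator K) :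
    ∃ δ > 0, ∀ μ : ℂ, ‖μ‖ < δ → FiniteDimensional ℂ (T + K - μ • 1 : H →L[ℂ] H).ker ∧
      (T + K - μ • 1 : H →L[ℂ] H).ker ≠ ⊥ := by
  obtain ⟨L, hL⟩ := rightInv hT
  have hTL : ∀ x, T (L x) = x := fun x => by
    have := DFunLike.congr_fun hL x
    simpa using this
  refine ⟨1 / (‖L‖ + 1), by positivity, fun μ hμ => ?_⟩
  have hW : IsUnit (1 - μ • L : H →L[ℂ] H) := by
    apply isUnit_one_sub_of_norm_lt_one
    rw [norm_smul]
    have h1 : ‖μ‖ * (‖L‖ + 1) < 1 := by
      rwa [lt_div_iff₀ (by positivity)] at hμ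
    nlinarith [norm_nonneg μ, norm_nonneg L]
  obtain ⟨w, hw⟩ := hW
  have hPc : IsCompactOperator (L * T - 1 : H →L[ℂ] H) := by
    refine finiteRank_compact T.ker fun x => ?_
    rw [LinearMap.mem_ker]
    simp [hTL]
  set A : H →L[ℂ] H := T + K - μ • 1 with hA
  constructor
  · -- finite dimensional
    set C : H →L[ℂ] H := (↑w⁻¹ : H →L[ℂ] H) * ((L * T - 1) + L * K) with hC
    have hCc : IsCompactOperator C := by
      have h1 : IsCompactOperator ((L * T - 1) + L * K : H →L[ℂ] H) :=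
        hPc.add (hK.clm_comp L)
      exact h1.clm_comp (↑w⁻¹ : H →L[ℂ] H)
    have hfac : (↑w⁻¹ : H →L[ℂ] H) * L * A = 1 + C := by
      have h1 : L * A = ↑w + ((L * T - 1) + L * K) := by
        rw [hw, hA, mul_sub, mul_add, mul_smul_comm, mul_one]
        abel
      rw [mul_assoc, h1, mul_add, Units.inv_mul, hC]
    have := fd_ker_one_add hCc
    refine Submodule.finiteDimensional_of_le (S₂ := (1 + C : H →L[ℂ] H).ker) ?_
    intro x hx
    rw [LinearMap.mem_ker] at hx ⊢
    rw [← hfac]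
    change (↑w⁻¹ : H →L[ℂ] H) (L (A x)) = 0
    have hx' : A x = 0 := hx
    rw [hx', map_zero, map_zero]
  · -- nontrivial
    intro hbot
    have hAi : Function.Injective A := LinearMap.ker_eq_bot.1 hbot
    have hLi : Function.Injective L := fun x y hxy => by
      rw [← hTL x, ← hTL y, hxy]
    set C : H →L[ℂ] H := K * L * (↑w⁻¹ : H →L[ℂ] H) with hC
    have hCc : IsCompactOperator C := by
      have h1 : IsCompactOperator (K * L : H →L[ℂ] H) := hK.comp_clm L
      exact h1.comp_clm (↑w⁻¹ : H →L[ℂ] H)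
    have hfac : A * L = (1 + C) * ↑w := by
      rw [add_mul, one_mul, hC, mul_assoc, Units.inv_mul, mul_one, hw, hA, sub_mul, add_mul, hL,
        smul_mul_assoc, one_mul]
      abel
    have hfac2 : (1 + C) = A * L * (↑w⁻¹ : H →L[ℂ] H) := by
      rw [hfac, mul_assoc, Units.mul_inv, mul_one]
    have hwi : Function.Bijective (↑w⁻¹ : H →L[ℂ] H) :=
      ContinuousLinearMap.isUnit_iff_bijective.1 w⁻¹.isUnit
    have hi : Function.Injective (1 + C : H →L[ℂ] H) := by
      rw [hfac2]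
      exact (hAi.comp hLi).comp hwi.1
    have hu := isUnit_one_add hCc hi
    have hu2 : IsUnit (A * L) := by
      rw [hfac]
      exact hu.mul w.isUnit
    have hb := ContinuousLinearMap.isUnit_iff_bijective.1 hu2
    have hLs : Function.Surjective L := by
      intro y
      obtain ⟨x, hx⟩ := hb.2 (A y)
      exact ⟨x, hAi hx⟩
    apply hne
    rw [eq_bot_iff]
    intro x hx
    obtain ⟨y, rfl⟩ := hLs x
    rw [LinearMap.mem_ker] at hx
    have hx' : T (L y) = 0 := hx
    rw [hTL] at hx'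
    rw [hx', map_zero]
    exact Submodule.zero_mem _

/-- A linear map between finite-dimensional spaces, onto, injective only for equal dimensions. -/
theorem exists_onto {N Q : Type*} [AddCommGroup N] [Module ℂ N] [FiniteDimensional ℂ N]
    [AddCommGroup Q] [Module ℂ Q] [FiniteDimensional ℂ Q]
    (h : Module.finrank ℂ Q ≤ Module.finrank ℂ N) :
    ∃ u : N →ₗ[ℂ] Q, Function.Surjective u := by
  have e1 := (Module.finBasis ℂ N).equivFun
  have e2 := (Module.finBasis ℂ Q).equivFun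
  refine ⟨e2.symm.toLinearMap ∘ₗ LinearMap.funLeft ℂ ℂ (Fin.castLE h) ∘ₗ e1.toLinearMap, ?_⟩
  exact e2.symm.surjective.comp ((LinearMap.funLeft_surjective_of_injective ℂ ℂ _
    (Fin.castLE_injective h)).comp e1.surjective)

/-- A finite rank perturbation making an operator with closed range and
`dim ker ≥ dim (range)ᗮ` surjective. -/
theorem exists_surj {T : H →L[ℂ] H} (hcl : IsClosed (T.range : Set H))
    (h1 : FiniteDimensional ℂ T.ker) (h2 : FiniteDimensional ℂ (T.rangeᗮ : Submodule ℂ H))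
    (hle : Module.finrank ℂ (T.rangeᗮ : Submodule ℂ H) ≤ Module.finrank ℂ T.ker) :
    ∃ F : H →L[ℂ] H, IsCompactOperator F ∧ Function.Surjective (T + F) ∧
      FiniteDimensional ℂ (T + F : H →L[ℂ] H).ker ∧
      (Module.finrank ℂ (T.rangeᗮ : Submodule ℂ H) < Module.finrank ℂ T.ker →
        (T + F : H →L[ℂ] H).ker ≠ ⊥) ∧
      (Module.finrank ℂ (T.rangeᗮ : Submodule ℂ H) = Module.finrank ℂ T.ker →
        (T + F : H →L[ℂ] H).ker = ⊥) := by
  have hcomp : CompleteSpace T.ker := FiniteDimensional.complete ℂ _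
  set N : Submodule ℂ H := T.ker with hN
  set Q : Submodule ℂ H := T.rangeᗮ with hQ
  obtain ⟨u, hu⟩ := exists_onto hle
  have hcompR : CompleteSpace (T.range : Submodule ℂ H) := hcl.completeSpace_coe
  set F : H →L[ℂ] H := Q.subtypeL ∘L (LinearMap.toContinuousLinearMap u) ∘L
    (N.orthogonalProjectionOnto) with hF
  have hFQ : ∀ x, F x ∈ Q := fun x => (u (N.orthogonalProjectionOnto x)).2
  have hFx : ∀ x, F x = ((u (N.orthogonalProjectionOnto x) : Q) : H) := fun x => rfl
  have hkerle : ∀ x, (T + F) x = 0 → x ∈ N ∧ u (N.orthogonalProjectionOnto x) = 0 := by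
    intro x hx
    have e1 : T x = -F x := by
      have : T x + F x = 0 := hx
      exact eq_neg_of_add_eq_zero_left this
    have e2 : T x ∈ Q := by rw [e1]; exact Q.neg_mem (hFQ x)
    have e3 : T x ∈ (T.range : Submodule ℂ H) := ⟨x, rfl⟩
    have e4 : T x = 0 := by
      have := (Submodule.mem_orthogonal _ _).1 e2 _ e3
      exact inner_self_eq_zero.1 this
    refine ⟨e4, ?_⟩
    have e5 : F x = 0 := by rw [e4] at e1; exact neg_eq_zero.1 e1.symm
    rw [hFx] at e5
    exact Subtype.ext e5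
  refine ⟨F, finiteRank_compact Q hFQ, ?_, ?_, ?_, ?_⟩
  · intro h
    obtain ⟨r, hr, w, hw, hrw⟩ := Submodule.exists_add_mem_mem_orthogonal
      (K := (T.range : Submodule ℂ H)) h
    obtain ⟨x, rfl⟩ := hr
    obtain ⟨n, hn⟩ := hu (⟨w, hw⟩ - u (N.orthogonalProjectionOnto x))
    refine ⟨x + n, ?_⟩
    have e1 : T (n : H) = 0 := n.2
    have e2 : N.orthogonalProjectionOnto (n : H) = n :=
      Submodule.orthogonalProjectionOnto_mem_subspace_eq_self n
    change T (x + n) + F (x + n) = h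
    rw [map_add, e1, add_zero, hFx, map_add, e2, map_add, hn, add_sub_cancel, hrw]
    rfl
  · refine Submodule.finiteDimensional_of_le (S₂ := N) ?_
    intro x hx
    exact (hkerle x hx).1
  · intro hlt hbot
    have h3 := LinearMap.ker_ne_bot_of_finrank_lt (f := u) hlt
    apply h3
    rw [eq_bot_iff]
    intro n hn
    rw [LinearMap.mem_ker] at hn
    have e2 : N.orthogonalProjectionOnto (n : H) = n :=
      Submodule.orthogonalProjectionOnto_mem_subspace_eq_self n
    have h4 : (n : H) ∈ (T + F : H →L[ℂ] H).ker := by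
      rw [LinearMap.mem_ker]
      change T (n : H) + F (n : H) = 0
      have e1 : T (n : H) = 0 := n.2
      rw [e1, hFx, e2, hn, zero_add]
      rfl
    rw [hbot] at h4
    exact Subtype.ext ((Submodule.mem_bot ℂ).1 h4)
  · intro heq
    have hui : Function.Injective u := (LinearMap.injective_iff_surjective_of_finrank_eq_finrank
      heq.symm).2 hu
    rw [eq_bot_iff]
    intro x hx
    obtain ⟨h3, h4⟩ := hkerle x hx
    have e2 : N.orthogonalProjectionOnto x = ⟨x, h3⟩ :=
      Submodule.orthogonalProjectionOnto_mem_subspace_eq_self (⟨x, h3⟩ : N)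
    rw [e2] at h4
    have h5 : (⟨x, h3⟩ : N) = 0 := hui (by rw [h4, map_zero])
    rw [Submodule.mem_bot]
    exact congrArg Subtype.val h5

/-- Closed range theorem, with the range of the adjoint. -/
theorem range_adjoint {T : H →L[ℂ] H} (hcl : IsClosed (T.range : Set H)) :
    (adjoint T).range = T.kerᗮ := by
  have hkc : IsClosed (T.ker : Set H) := T.isClosed_ker
  have hcompN : CompleteSpace T.ker := hkc.completeSpace_coe
  set N : Submodule ℂ H := T.ker with hN
  -- lower bound on the orthogonal complement of the kernel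
  set Tr : Nᗮ →L[ℂ] H := T ∘L (Nᗮ).subtypeL with hTr
  have hinj : Function.Injective Tr := by
    rw [← ContinuousLinearMap.coe_coe, ← LinearMap.ker_eq_bot, eq_bot_iff]
    intro x hx
    have hx' : T (x : H) = 0 := hx
    have h1 : (x : H) ∈ N := hx'
    have h2 := (Submodule.mem_orthogonal _ _).1 x.2 _ h1
    have h3 := inner_self_eq_zero.1 h2
    rw [Submodule.mem_bot]
    exact Subtype.ext h3
  have hdec : ∀ x : H, ∃ n : N, ∃ m : Nᗮ, x = n + m ∧ N.orthogonalProjectionOnto x = n := by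
    intro x
    obtain ⟨n, hn, m, hm, hnm⟩ := Submodule.exists_add_mem_mem_orthogonal (K := N) x
    refine ⟨⟨n, hn⟩, ⟨m, hm⟩, hnm, ?_⟩
    rw [hnm, map_add, Submodule.orthogonalProjectionOnto_eq_zero_iff.2 hm, add_zero]
    exact Submodule.orthogonalProjectionOnto_mem_subspace_eq_self (⟨n, hn⟩ : N)
  have hrange : (Tr.range : Set H) = (T.range : Set H) := by
    ext y
    constructor
    · rintro ⟨x, rfl⟩
      exact ⟨x, rfl⟩
    · rintro ⟨x, rfl⟩
      obtain ⟨n, m, hnm, -⟩ := hdec x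
      refine ⟨m, ?_⟩
      have e1 : T (n : H) = 0 := n.2
      change T (m : H) = T x
      rw [hnm, map_add, e1, zero_add]
  obtain ⟨C, hC⟩ := Tr.antilipschitz_of_injective_of_isClosed_range hinj (by
    have := hcl; rw [← hrange] at this; exact this)
  have hC' : ∀ m : Nᗮ, ‖(m : H)‖ ≤ C * ‖T (m : H)‖ := by
    intro m
    have := hC.le_mul_norm_sub m 0
    simpa [hTr] using this
  -- the coercive operator
  set S : H →L[ℂ] H := adjoint T * T + N.subtypeL ∘L N.orthogonalProjectionOnto with hS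
  have hSx : ∀ x, inner ℂ (S x) x = ((‖T x‖ ^ 2 + ‖N.orthogonalProjectionOnto x‖ ^ 2 : ℝ) : ℂ) := by
    intro x
    have e0 : S x = adjoint T (T x) + (N.orthogonalProjectionOnto x : H) := rfl
    rw [e0, inner_add_left, adjoint_inner_left, inner_self_eq_norm_sq_to_K]
    obtain ⟨n, m, hnm, hn⟩ := hdec x
    have e1 : inner ℂ ((N.orthogonalProjectionOnto x : N) : H) x
        = ((‖N.orthogonalProjectionOnto x‖ ^ 2 : ℝ) : ℂ) := by
      rw [hn]
      conv_lhs => rw [hnm]
      rw [inner_add_right, (Submodule.mem_orthogonal _ _).1 m.2 _ n.2, add_zero,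
        inner_self_eq_norm_sq_to_K]
      push_cast
      rfl
    rw [e1]
    push_cast
    rfl
  have hSu : IsUnit S := by
    refine isUnit_of_coercive (1 / (2 * ((C : ℝ) ^ 2 + 1))) (by positivity) fun x => ?_
    rw [hSx, Complex.norm_real, Real.norm_of_nonneg (by positivity)]
    obtain ⟨n, m, hnm, hn⟩ := hdec x
    have e1 : T x = T (m : H) := by
      have e1 : T (n : H) = 0 := n.2
      rw [hnm, map_add, e1, zero_add]
    rw [e1, hn]
    have e2 : ‖x‖ ≤ ‖(n : H)‖ + ‖(m : H)‖ := by rw [hnm]; exact norm_add_le _ _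
    have e3 := hC' m
    have e4 : ‖(n : N)‖ = ‖(n : H)‖ := rfl
    rw [e4]
    have hC0 : (0 : ℝ) ≤ C := C.2
    rw [div_mul_eq_mul_div, one_mul, div_le_iff₀ (by positivity)]
    have e5 : ‖x‖ ^ 2 ≤ 2 * ‖(n : H)‖ ^ 2 + 2 * ‖(m : H)‖ ^ 2 := by
      have := norm_nonneg x
      nlinarith [sq_nonneg (‖(n : H)‖ - ‖(m : H)‖)]
    have e6 : ‖(m : H)‖ ^ 2 ≤ (C : ℝ) ^ 2 * ‖T (m : H)‖ ^ 2 := by
      rw [← mul_pow]
      exact pow_le_pow_left₀ (norm_nonneg _) e3 2
    nlinarith [sq_nonneg ‖T (m : H)‖, sq_nonneg ‖(n : H)‖, mul_nonneg (sq_nonneg (C : ℝ)) (sq_nonneg ‖(n : H)‖)]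
  apply le_antisymm
  · rintro _ ⟨x, rfl⟩
    rw [Submodule.mem_orthogonal]
    intro n hn
    have hn' : T n = 0 := hn
    change inner ℂ n (adjoint T x) = 0
    rw [adjoint_inner_right, hn', inner_zero_left]
  · intro y hy
    obtain ⟨x, hx⟩ := (ContinuousLinearMap.isUnit_iff_bijective.1 hSu).2 y
    have e0 : S x = adjoint T (T x) + (N.orthogonalProjectionOnto x : H) := rfl
    have e1 : (N.orthogonalProjectionOnto x : H) ∈ Nᗮ := by
      have : (N.orthogonalProjectionOnto x : H) = y - adjoint T (T x) := by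
        rw [← hx, e0]; abel
      rw [this]
      refine Submodule.sub_mem _ hy ?_
      rw [Submodule.mem_orthogonal]
      intro n hn
      have hn' : T n = 0 := hn
      rw [adjoint_inner_right, hn', inner_zero_left]
    have e2 := (Submodule.mem_orthogonal _ _).1 e1 _ (N.orthogonalProjectionOnto x).2
    have e3 := inner_self_eq_zero.1 e2
    refine ⟨T x, ?_⟩
    change adjoint T (T x) = y
    rw [← hx, e0, e3, add_zero]

/-- The adjoint of a compact operator is compact. -/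
theorem compact_adjoint {a : H →L[ℂ] H} (ha : IsCompactOperator a) :
    IsCompactOperator (adjoint a) := by
  have h1 : IsCompactOperator (a ∘L adjoint a) := ha.comp_clm (adjoint a)
  have h2 := (isCompactOperator_iff_isCompact_closure_image_ball
    ((a ∘L adjoint a : H →L[ℂ] H) : H →ₗ[ℂ] H) one_pos).1 h1
  have h3 : TotallyBounded ((a ∘L adjoint a : H →L[ℂ] H) '' Metric.ball 0 1) :=
    h2.totallyBounded.subset subset_closure
  refine (isCompactOperator_iff_isCompact_closure_image_ball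
    ((adjoint a : H →L[ℂ] H) : H →ₗ[ℂ] H) one_pos).2 ?_
  rw [isCompact_iff_totallyBounded_isComplete]
  refine ⟨?_, isClosed_closure.isComplete⟩
  apply TotallyBounded.closure
  rw [Metric.totallyBounded_iff]
  intro ε hε
  rw [totallyBounded_iff_subset] at h3
  obtain ⟨t, hts, htf, hcov⟩ := h3 {q | dist q.1 q.2 < ε ^ 2 / 2}
    (Metric.dist_mem_uniformity (by positivity))
  choose g hg hg2 using hts
  have : Fintype t := htf.fintype
  refine ⟨Set.range (fun y : t => (adjoint a) (g y.2)), Set.finite_range _, ?_⟩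
  rintro _ ⟨x, hx, rfl⟩
  have hx2 := hcov ⟨x, hx, rfl⟩
  simp only [Set.mem_iUnion] at hx2
  obtain ⟨y, hy, hxy⟩ := hx2
  simp only [Set.mem_iUnion]
  refine ⟨_, ⟨⟨y, hy⟩, rfl⟩, ?_⟩
  have hxy' : dist ((a ∘L adjoint a) x) y < ε ^ 2 / 2 := hxy
  rw [← hg2 hy, dist_eq_norm, ← map_sub] at hxy'
  change dist ((adjoint a) x) ((adjoint a) (g hy)) < ε
  rw [dist_eq_norm, ← map_sub]
  set z := x - g hy with hz
  have hz1 : ‖z‖ < 2 := by
    have e1 : ‖x‖ < 1 := by simpa using hx
    have e2 : ‖g hy‖ < 1 := by simpa using hg hy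
    calc ‖z‖ ≤ ‖x‖ + ‖g hy‖ := norm_sub_le _ _
      _ < 2 := by linarith
  have h4 : ‖(adjoint a) z‖ ^ 2 ≤ ‖(a ∘L adjoint a) z‖ * ‖z‖ := by
    have e3 : inner ℂ ((a ∘L adjoint a) z) z = (((‖(adjoint a) z‖ ^ 2 : ℝ)) : ℂ) := by
      rw [ContinuousLinearMap.comp_apply, ← adjoint_inner_right, inner_self_eq_norm_sq_to_K]
      push_cast
      rfl
    have e4 := norm_inner_le_norm (𝕜 := ℂ) ((a ∘L adjoint a) z) z
    rw [e3, Complex.norm_real, Real.norm_of_nonneg (by positivity)] at e4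
    exact e4
  have h5 : ‖(adjoint a) z‖ ^ 2 < ε ^ 2 := by
    have e5 : ‖(a ∘L adjoint a) z‖ * ‖z‖ ≤ ‖(a ∘L adjoint a) z‖ * 2 := by gcongr
    have e6 : ‖(a ∘L adjoint a) z‖ * 2 < ε ^ 2 := by linarith
    linarith
  exact lt_of_pow_lt_pow_left₀ 2 hε.le h5

/-- Stability of exactness at the first place. -/
theorem bdd_of_exact {S R : H →L[ℂ] H} (h0 : S.ker ⊓ R.ker = ⊥) (hc : S * R = R * S)
    (h1 : ∀ x y, S y = R x → ∃ z, x = S z ∧ y = R z) :
    ∃ c > 0, ∀ x, c * ‖x‖ ≤ ‖S x‖ + ‖R x‖ := by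
  set D : H →L[ℂ] H × H := S.prod R with hD
  have hinj : Function.Injective D := by
    rw [← ContinuousLinearMap.coe_coe, ← LinearMap.ker_eq_bot, eq_bot_iff]
    intro x hx
    have hx' : (S x, R x) = (0, 0) := hx
    rw [Prod.mk.injEq] at hx'
    have : x ∈ S.ker ⊓ R.ker := ⟨hx'.1, hx'.2⟩
    rwa [h0] at this
  have hrange : Set.range D = {p : H × H | S p.2 = R p.1} := by
    ext ⟨x, y⟩
    constructor
    · rintro ⟨z, hz⟩
      have hz' : (S z, R z) = (x, y) := hz
      rw [Prod.mk.injEq] at hz'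
      change S y = R x
      rw [← hz'.1, ← hz'.2]
      have := DFunLike.congr_fun hc z
      exact this
    · intro h
      obtain ⟨z, hz1, hz2⟩ := h1 x y h
      exact ⟨z, by rw [hz1, hz2]; rfl⟩
  have hcl : IsClosed (Set.range D) := by
    rw [hrange]
    exact isClosed_eq (S.continuous.comp continuous_snd) (R.continuous.comp continuous_fst)
  obtain ⟨K, hK⟩ := D.antilipschitz_of_injective_of_isClosed_range hinj hcl
  refine ⟨1 / ((K : ℝ) + 1), by positivity, fun x => ?_⟩
  have h2 := hK.le_mul_norm_sub x 0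
  rw [map_zero, add_zero, add_zero, norm_neg, norm_neg] at h2
  have h3 : ‖D x‖ ≤ ‖S x‖ + ‖R x‖ := by
    change ‖(S x, R x)‖ ≤ _
    rw [Prod.norm_mk]
    exact max_le (le_add_of_nonneg_right (norm_nonneg _)) (le_add_of_nonneg_left (norm_nonneg _))
  rw [div_mul_eq_mul_div, one_mul, div_le_iff₀ (by positivity)]
  have h4 : (0 : ℝ) ≤ K := K.2
  nlinarith [norm_nonneg (S x), norm_nonneg (R x), norm_nonneg (D x)]

/-- Stability of exactness at the last place, for the adjoints. -/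
theorem bdd_adjoint_of_exact {S R : H →L[ℂ] H} (h0 : S.range ⊔ R.range = ⊤) :
    ∃ c > 0, ∀ x, c * ‖x‖ ≤ ‖adjoint S x‖ + ‖adjoint R x‖ := by
  set D : H × H →L[ℂ] H := S.coprod R with hD
  have hs : Function.Surjective D := by
    intro y
    have hy : y ∈ S.range ⊔ R.range := by rw [h0]; exact Submodule.mem_top
    obtain ⟨_, ⟨a, rfl⟩, _, ⟨b, rfl⟩, hab⟩ := Submodule.mem_sup.1 hy
    exact ⟨(a, b), hab⟩
  obtain ⟨C, hC, h⟩ := D.exists_preimage_norm_le hs
  refine ⟨C⁻¹, by positivity, fun z => ?_⟩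
  obtain ⟨⟨a, b⟩, hx, hxn⟩ := h z
  rcases eq_or_ne z 0 with rfl | hz
  · simp
  have hz0 : 0 < ‖z‖ := norm_pos_iff.2 hz
  have ha : ‖a‖ ≤ C * ‖z‖ := (norm_fst_le (a, b)).trans hxn
  have hb : ‖b‖ ≤ C * ‖z‖ := (norm_snd_le (a, b)).trans hxn
  have hx' : S a + R b = z := hx
  have h1 : (‖z‖ : ℝ) ^ 2 ≤ ‖a‖ * ‖adjoint S z‖ + ‖b‖ * ‖adjoint R z‖ := by
    have e1 : inner ℂ a (adjoint S z) + inner ℂ b (adjoint R z) = ((‖z‖ : ℝ) : ℂ) ^ 2 := by
      rw [adjoint_inner_right, adjoint_inner_right, ← inner_add_left, hx',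
        inner_self_eq_norm_sq_to_K]
      rfl
    have e2 := norm_add_le (inner ℂ a (adjoint S z)) (inner ℂ b (adjoint R z))
    rw [e1, norm_pow, Complex.norm_real, norm_norm] at e2
    exact e2.trans (add_le_add (norm_inner_le_norm _ _) (norm_inner_le_norm _ _))
  have h2 : ‖z‖ * ‖z‖ ≤ ‖z‖ * (C * (‖adjoint S z‖ + ‖adjoint R z‖)) := by
    have e1 : ‖a‖ * ‖adjoint S z‖ ≤ C * ‖z‖ * ‖adjoint S z‖ := by gcongr
    have e2 : ‖b‖ * ‖adjoint R z‖ ≤ C * ‖z‖ * ‖adjoint R z‖ := by gcongr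
    nlinarith
  have h3 := le_of_mul_le_mul_left h2 hz0
  calc C⁻¹ * ‖z‖ ≤ C⁻¹ * (C * (‖adjoint S z‖ + ‖adjoint R z‖)) := by gcongr
    _ = ‖adjoint S z‖ + ‖adjoint R z‖ := by field_simp

/-- positive excess of the kernel: no commuting exact compact perturbation of `(T, T)` -/
theorem neg_of_surj {T K₁ K₂ F : H →L[ℂ] H} (hF : IsCompactOperator F)
    (hs : Function.Surjective (T + F)) (hfd : FiniteDimensional ℂ (T + F : H →L[ℂ] H).ker)
    (hne : (T + F : H →L[ℂ] H).ker ≠ ⊥) (hK₁ : IsCompactOperator K₁) (hK₂ : IsCompactOperator K₂)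
    (hc : (T + K₁) * (T + K₂) = (T + K₂) * (T + K₁)) :
    ¬ ∃ c > 0, ∀ x, c * ‖x‖ ≤ ‖(T + K₁) x‖ + ‖(T + K₂) x‖ := by
  rintro ⟨c, hc0, hb⟩
  obtain ⟨δ, hδ, h⟩ := perturb (K := K₁ - F) hs hfd hne (hK₁.sub hF)
  have e : T + F + (K₁ - F) = T + K₁ := by abel
  rw [e] at h
  refine core hc ?_ c hc0 hb δ hδ h
  have e2 : T + K₁ - (T + K₂) = K₁ - K₂ := by abel
  rw [e2]
  exact hK₁.sub hK₂

theorem orthogonal_range (T : H →L[ℂ] H) : (T.rangeᗮ : Submodule ℂ H) = (adjoint T).ker :=
  ContinuousLinearMap.orthogonal_range T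

/-- nonzero index: no commuting exact compact perturbation of `(T, T)` -/
theorem main_neg {T : H →L[ℂ] H} (hcl : IsClosed (T.range : Set H))
    (h1 : FiniteDimensional ℂ T.ker) (h2 : FiniteDimensional ℂ (T.rangeᗮ : Submodule ℂ H))
    (hne : Module.finrank ℂ T.ker ≠ Module.finrank ℂ (T.rangeᗮ : Submodule ℂ H))
    {K₁ K₂ : H →L[ℂ] H} (hK₁ : IsCompactOperator K₁) (hK₂ : IsCompactOperator K₂)
    (hc : (T + K₁) * (T + K₂) = (T + K₂) * (T + K₁))
    (hx0 : (T + K₁ : H →L[ℂ] H).ker ⊓ (T + K₂ : H →L[ℂ] H).ker = ⊥)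
    (hx1 : (T + K₁ : H →L[ℂ] H).range ⊔ (T + K₂ : H →L[ℂ] H).range = ⊤)
    (hx2 : ∀ x y, (T + K₁) y = (T + K₂) x → ∃ z, x = (T + K₁) z ∧ y = (T + K₂) z) : False := by
  rcases lt_or_gt_of_ne hne with hlt | hlt
  · -- pass to the adjoint
    have hr := range_adjoint hcl
    have hcl' : IsClosed ((adjoint T).range : Set H) := by
      rw [hr]
      exact Submodule.isClosed_orthogonal _
    have hk : (adjoint T).ker = (T.rangeᗮ : Submodule ℂ H) := (orthogonal_range T).symm
    have hro : ((adjoint T).rangeᗮ : Submodule ℂ H) = T.ker := by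
      rw [orthogonal_range, adjoint_adjoint]
    have h1' : FiniteDimensional ℂ (adjoint T).ker := by rw [hk]; exact h2
    have h2' : FiniteDimensional ℂ ((adjoint T).rangeᗮ : Submodule ℂ H) := by rw [hro]; exact h1
    have hlt' : Module.finrank ℂ ((adjoint T).rangeᗮ : Submodule ℂ H) <
        Module.finrank ℂ (adjoint T).ker := by
      rw [hro, hk]; exact hlt
    obtain ⟨F, hF, hs, hfd, hn, -⟩ := exists_surj hcl' h1' h2' hlt'.le
    have hb := bdd_adjoint_of_exact hx1
    rw [map_add, map_add] at hb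
    refine neg_of_surj hF hs hfd (hn hlt') (compact_adjoint hK₁) (compact_adjoint hK₂) ?_ hb
    have := congrArg adjoint hc
    rw [← star_eq_adjoint, ← star_eq_adjoint, star_mul, star_mul] at this
    rw [star_add, star_add] at this
    exact this.symm
  · obtain ⟨F, hF, hs, hfd, hn, -⟩ := exists_surj hcl h1 h2 hlt.le
    exact neg_of_surj hF hs hfd (hn hlt) hK₁ hK₂ hc (bdd_of_exact hx0 hc hx2)

/-- index zero: a compact perturbation which is invertible -/
theorem main_pos {T : H →L[ℂ] H} (hcl : IsClosed (T.range : Set H))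
    (h1 : FiniteDimensional ℂ T.ker) (h2 : FiniteDimensional ℂ (T.rangeᗮ : Submodule ℂ H))
    (heq : Module.finrank ℂ T.ker = Module.finrank ℂ (T.rangeᗮ : Submodule ℂ H)) :
    ∃ F : H →L[ℂ] H, IsCompactOperator F ∧ Function.Bijective (T + F) := by
  obtain ⟨F, hF, hs, -, -, hk⟩ := exists_surj hcl h1 h2 heq.ge
  exact ⟨F, hF, LinearMap.ker_eq_bot.1 (hk heq.symm), hs⟩

end Pool.Agent.U552.CommPair
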