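import Pool.Agent.U552.FineReal

set_option autoImplicit false

/-! # The second iterate: lemniscates -/

namespace Pool.Agent.U552.Fine

open Complex Metric Set Filter Topology Bornology N62a1eb23
open Pool.Agent.H712R2 Pool.Agent.H713R2 Pool.Agent.R240.Ext

variable {d : ℕ} {ψ : ℂ → ℂ}

theorem P_two (hd : 2 ≤ d) (c : ℂ) : P d 2 c = c * (1 + c ^ (d - 1)) := by
  rw [show (2 : ℕ) = 1 + 1 from rfl, P_succ, P_one hd]
  have h : c ^ d = c * c ^ (d - 1) := by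
    rw [← pow_succ']
    congr 1
    omega
  rw [h]
  ring

/-- First order asymptotics in the coordinate `c ^ (d - 1)`. -/
theorem petal (hd : 2 ≤ d) (hψ : IsExteriorMap (multibrotSet d) ψ) {w : ℂ} (hw : 1 < ‖w‖) :
    ∃ E : ℂ, 1 + ψ w ^ (d - 1) = w ^ (d - 1) * Complex.exp E ∧
      -(Real.log (120 * d ^ 2) / (d - 1)) ≤ E.re ∧ E.re ≤ Real.log (8 * d) / (d - 1) ∧
      ‖E‖ ≤ 4 * (Real.log (240 * d ^ 3) / (d - 1)) / Real.pi *
        -Real.log (1 - ‖w‖⁻¹ ^ (d - 1)) := by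
  have hdr : (2 : ℝ) ≤ d := by exact_mod_cast hd
  have hd1 : (0 : ℝ) < (d : ℝ) - 1 := by linarith
  obtain ⟨E0, h1, h2, h3, h4⟩ := all_orders hd hψ 0 hw
  obtain ⟨E1, h5, h6, h7, h8⟩ := all_orders hd hψ 1 hw
  rw [zero_add, P_one hd, pow_zero, pow_one] at h1
  rw [show 1 + 1 = 2 from rfl, P_two hd, pow_one] at h5
  rw [pow_zero, mul_one] at h2 h4
  rw [pow_one] at h6 h8
  rw [zero_add, pow_one] at h4
  have hw0 : w ≠ 0 := by
    rintro rfl
    rw [norm_zero] at hw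
    linarith
  have hψ0 : ψ w ≠ 0 := psi_ne hd hψ hw
  have hl1 : Real.log (120 * d ^ 2) = Real.log (4 * d * (15 * d)) + Real.log 2 := by
    rw [← Real.log_mul (by positivity) (by norm_num)]
    congr 1
    ring
  have hl2 : Real.log (8 * d) = Real.log 2 + Real.log (4 * d) := by
    rw [← Real.log_mul (by norm_num) (by positivity)]
    congr 1
    ring
  have hl3 : Real.log (240 * d ^ 3) = Real.log (4 * d * (15 * d)) + Real.log (4 * d) := by
    rw [← Real.log_mul (by positivity) (by positivity)]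
    congr 1
    ring
  refine ⟨E1 - E0, ?_, ?_, ?_, ?_⟩
  · have h9 : w ^ d = w * w ^ (d - 1) := by
      rw [← pow_succ']
      congr 1
      omega
    rw [Complex.exp_sub]
    have hE0 := Complex.exp_ne_zero E0
    apply mul_left_cancel₀ hψ0
    rw [h5, h9]
    conv_rhs => rw [h1]
    field_simp
  · rw [Complex.sub_re, hl1, add_div]
    linarith
  · rw [Complex.sub_re, hl2, add_div]
    linarith
  · obtain ⟨q, hq⟩ : ∃ q : ℝ, q = ‖w‖⁻¹ := ⟨_, rfl⟩
    rw [← hq] at h4 h8 ⊢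
    have hq0 : 0 < q := by rw [hq]; exact inv_pos.2 (by linarith)
    have hq1 : q < 1 := by rw [hq]; exact inv_lt_one_of_one_lt₀ hw
    have h10 : q ^ (d ^ (1 + 1) - 1) ≤ q ^ (d - 1) := by
      apply pow_le_pow_of_le_one hq0.le hq1.le
      have : d ≤ d ^ (1 + 1) := Nat.le_self_pow (by norm_num) d
      omega
    have h11 : q ^ (d - 1) < 1 := pow_lt_one₀ hq0.le hq1 (by omega)
    have h12 : -Real.log (1 - q ^ (d ^ (1 + 1) - 1)) ≤ -Real.log (1 - q ^ (d - 1)) := by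
      apply neg_le_neg
      apply Real.log_le_log (by linarith)
      linarith
    have h13 : 0 ≤ Real.log (4 * d * (15 * d)) := Real.log_nonneg (by nlinarith)
    have h14 : 0 ≤ 4 * (Real.log (4 * d * (15 * d)) / (d - 1)) / Real.pi := by positivity
    calc ‖E1 - E0‖ ≤ ‖E1‖ + ‖E0‖ := norm_sub_le _ _
      _ ≤ 4 * (Real.log (4 * d * (15 * d)) / (d - 1)) / Real.pi * -Real.log (1 - q ^ (d - 1)) +
          4 * (Real.log (4 * d) / (d - 1)) / Real.pi * -Real.log (1 - q ^ (d - 1)) := by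
        refine add_le_add (h8.trans ?_) h4
        exact mul_le_mul_of_nonneg_left h12 h14
      _ = _ := by rw [hl3]; ring

/-- Lower bound outside and on the boundary. -/
theorem lem_low (hd : 2 ≤ d) {c : ℂ} (hc : c ∈ frontier (multibrotSet d)) :
    1 / (120 * (d : ℝ) ^ 2) ≤ ‖1 + c ^ (d - 1)‖ ^ (d - 1) := by
  have hdr : (2 : ℝ) ≤ d := by exact_mod_cast hd
  have h1 := Pool.Agent.R240.Crit.low hd hc 1
  rw [show 1 + 1 = 2 from rfl, P_two hd, norm_mul, pow_one, mul_pow] at h1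
  have h2 := Pool.Agent.R240.Crit.up hd hc 1
  rw [P_one hd] at h2
  obtain ⟨y, hy⟩ : ∃ y, y = ‖1 + c ^ (d - 1)‖ ^ (d - 1) := ⟨_, rfl⟩
  have h3 : 0 ≤ ‖1 + c ^ (d - 1)‖ ^ (d - 1) := by positivity
  rw [← hy] at h1 h3 ⊢
  rw [div_le_iff₀ (by positivity)] at h1 ⊢
  have h4 : ‖c‖ ^ (d - 1) * y ≤ 2 * y := mul_le_mul_of_nonneg_right h2 h3
  have h5 : ‖c‖ ^ (d - 1) * y * (4 * d * (15 * d)) ≤ 2 * y * (4 * d * (15 * d)) :=
    mul_le_mul_of_nonneg_right h4 (by positivity)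
  nlinarith

theorem lem_in (hd : 2 ≤ d) {c : ℂ} (hc : ‖1 + c ^ (d - 1)‖ ^ (d - 1) ≤ 1 / (120 * (d : ℝ) ^ 2)) :
    c ∈ multibrotSet d := by
  have hdr : (2 : ℝ) ≤ d := by exact_mod_cast hd
  have hd1 : (0 : ℝ) < (d : ℝ) - 1 := by linarith
  by_contra hcM
  obtain ⟨β, hβ⟩ := exists_beta (d := d) hd
  have hψ := exteriorMap_of_beta hβ
  obtain ⟨ψ, hψ'⟩ : ∃ ψ : ℂ → ℂ, IsExteriorMap (multibrotSet d) ψ := ⟨_, hψ⟩
  have h1 : c ∈ ψ '' {z | 1 < ‖z‖} := by
    rw [hψ'.image]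
    exact hcM
  obtain ⟨w, hw, rfl⟩ := h1
  have hw1 : 1 < ‖w‖ := hw
  obtain ⟨E, h2, h3, -, -⟩ := petal hd hψ' hw1
  rw [h2, norm_mul, Complex.norm_exp, norm_pow, mul_pow, ← Real.exp_nat_mul, cast_pred hd] at hc
  have h4 : 1 < (‖w‖ ^ (d - 1)) ^ (d - 1) :=
    one_lt_pow₀ (one_lt_pow₀ hw1 (by omega)) (by omega)
  have h5 : 1 / (120 * (d : ℝ) ^ 2) ≤ Real.exp ((d - 1) * E.re) := by
    rw [← neg_div, div_le_iff₀ hd1] at h3
    rw [one_div, ← Real.exp_log (show (0 : ℝ) < (120 * (d : ℝ) ^ 2)⁻¹ by positivity),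
      Real.exp_le_exp, Real.log_inv]
    linarith
  have h6 : 0 < 1 / (120 * (d : ℝ) ^ 2) := by positivity
  nlinarith

theorem lem_up (hd : 2 ≤ d) {c : ℂ} (hc : c ∈ multibrotSet d) :
    ‖1 + c ^ (d - 1)‖ ^ (d - 1) ≤ 8 * d := by
  have hdr : (2 : ℝ) ≤ d := by exact_mod_cast hd
  by_cases h : 1 / (4 * (d : ℝ)) ≤ ‖c‖ ^ (d - 1)
  · have h1 := Pool.Agent.H462R2.CD.pow_le_two hd hc 2
    rw [P_two hd, norm_mul, mul_pow] at h1
    rw [div_le_iff₀ (by positivity)] at h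
    have h3 : 0 ≤ ‖1 + c ^ (d - 1)‖ ^ (d - 1) := by positivity
    nlinarith
  · push Not at h
    have h1 : ‖1 + c ^ (d - 1)‖ ≤ 1 + 1 / (4 * d) := by
      refine (norm_add_le _ _).trans ?_
      rw [norm_one, norm_pow]
      linarith
    have h2 : ‖1 + c ^ (d - 1)‖ ^ (d - 1) ≤ (Real.exp (1 / (4 * d))) ^ (d - 1) := by
      apply pow_le_pow_left₀ (norm_nonneg _)
      refine h1.trans ?_
      have := Real.add_one_le_exp (1 / (4 * (d : ℝ)))
      linarith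
    rw [← Real.exp_nat_mul, cast_pred hd] at h2
    have h3 : ((d : ℝ) - 1) * (1 / (4 * d)) ≤ 1 := by
      rw [mul_one_div, div_le_one (by positivity)]
      linarith
    have h4 := Real.exp_le_exp.2 h3
    have h5 := Real.exp_one_lt_d9
    linarith

end Pool.Agent.U552.Fine
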