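import Pool.Agent.U552.FineShape

set_option autoImplicit false

/-! # The impressions of the exterior maps of the Multibrot sets -/

namespace Pool.Agent.U552.Fine

open Complex Metric Set Filter Topology Bornology N62a1eb23
open Pool.Agent.H712R2 Pool.Agent.H713R2 Pool.Agent.R240.Ext

variable {d : ℕ} {ψ : ℂ → ℂ}

/-- The impression of the unit vector `ζ`: all limits of `ψ w` as `w → ζ`, `‖w‖ > 1`. -/
def Imp (ψ : ℂ → ℂ) (ζ : ℂ) : Set ℂ := {c | MapClusterPt c (𝓝[{z : ℂ | 1 < ‖z‖}] ζ) ψ}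

/-- The logarithm of `ψ w / w` lies in a small rectangle. -/
theorem rect (hd : 2 ≤ d) (hψ : IsExteriorMap (multibrotSet d) ψ) :
    ∃ A : ℂ → ℂ, ∀ w : ℂ, 1 < ‖w‖ → ψ w = w * Complex.exp (A w) ∧
      -(Real.log (4 * d) / (d - 1)) ≤ (A w).re ∧ (A w).re ≤ Real.log 2 / (d - 1) ∧
      |(A w).im| < Real.pi / (d - 1) := by
  obtain ⟨β, hβ⟩ := exists_beta (d := d) hd
  obtain ⟨A, -, -, hA, hAi⟩ := exists_log_beta hd hβ hψ
  refine ⟨fun w => A w⁻¹, fun w hw => ?_⟩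
  obtain ⟨hx, hx0⟩ := inv_mem_ball hw
  have hw0 : 0 < ‖w‖ := by linarith
  have hψw : ψ w = w * β w⁻¹ := exteriorMap_unique hβ hψ hw
  have hre : (A w⁻¹).re = Real.log ‖ψ w‖ - Real.log ‖w‖ := by
    rw [hψw, norm_mul, ← hA _ hx, Complex.norm_exp, Real.log_mul (by positivity) (by positivity),
      Real.log_exp]
    ring
  have hup := green_up hd hψ 0 hw
  have hlow := green_low hd hψ 0 hw
  rw [zero_add, P_one hd, pow_zero, one_mul] at hup
  rw [zero_add, P_one hd, pow_zero, pow_zero, one_mul, mul_one] at hlow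
  rw [← hre] at hup hlow
  refine ⟨?_, hlow, hup, hAi _ hx⟩
  rw [hψw, hA _ hx]

theorem exp_sub_exp {a b : ℂ} {M : ℝ} (ha : a.re ≤ M) (hb : b.re ≤ M) :
    ‖Complex.exp a - Complex.exp b‖ ≤ Real.exp M * ‖a - b‖ := by
  have hconv : Convex ℝ {u : ℂ | u.re ≤ M} := convex_halfSpace_re_le M
  exact hconv.norm_image_sub_le_of_norm_hasDerivWithin_le (𝕜 := ℂ) (f := Complex.exp)
    (f' := Complex.exp) (C := Real.exp M)
    (fun u _ => (Complex.hasDerivAt_exp u).hasDerivWithinAt)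
    (fun u hu => by
      rw [Complex.norm_exp]
      exact Real.exp_le_exp.2 hu) hb ha

/-- Points of an impression. -/
theorem imp_log (hd : 2 ≤ d) (hψ : IsExteriorMap (multibrotSet d) ψ) {ζ c : ℂ}
    (hc : c ∈ Imp ψ ζ) : ∃ a : ℂ, c = ζ * Complex.exp a ∧
      -(Real.log (4 * d) / (d - 1)) ≤ a.re ∧ a.re ≤ Real.log 2 / (d - 1) ∧
      |a.im| ≤ Real.pi / (d - 1) := by
  obtain ⟨A, hA⟩ := rect hd hψ
  obtain ⟨U, hU, hUc⟩ := mapClusterPt_iff_ultrafilter.1 hc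
  obtain ⟨R, hR⟩ : ∃ R : Set ℂ, R = Icc (-(Real.log (4 * d) / (d - 1))) (Real.log 2 / (d - 1)) ×ℂ
      Icc (-(Real.pi / (d - 1))) (Real.pi / (d - 1)) := ⟨_, rfl⟩
  have hRc : IsCompact R := by
    rw [hR]
    exact isCompact_Icc.reProdIm isCompact_Icc
  have hev : ∀ᶠ w in (U : Filter ℂ), 1 < ‖w‖ := hU self_mem_nhdsWithin
  have hmem : ∀ᶠ w in (U : Filter ℂ), A w ∈ R := by
    filter_upwards [hev] with w hw
    obtain ⟨-, h1, h2, h3⟩ := hA w hw
    rw [hR, Complex.mem_reProdIm]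
    exact ⟨⟨h1, h2⟩, abs_le.1 h3.le⟩
  obtain ⟨a, haR, ha⟩ := hRc.ultrafilter_le_nhds (U.map A) (by
    rw [le_principal_iff]
    exact hmem)
  have hTA : Tendsto A U (𝓝 a) := ha
  have hTw : Tendsto (fun w : ℂ => w) U (𝓝 ζ) := hU.trans nhdsWithin_le_nhds
  have h1 : Tendsto (fun w => w * Complex.exp (A w)) U (𝓝 (ζ * Complex.exp a)) :=
    hTw.mul ((Complex.continuous_exp.tendsto a).comp hTA)
  have h2 : Tendsto ψ U (𝓝 (ζ * Complex.exp a)) := by
    refine h1.congr' ?_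
    filter_upwards [hev] with w hw
    exact (hA w hw).1.symm
  rw [hR, Complex.mem_reProdIm] at haR
  exact ⟨a, tendsto_nhds_unique hUc h2, haR.1.1, haR.1.2, abs_le.2 haR.2⟩

/-- Impressions are in the boundary. -/
theorem imp_frontier (hd : 2 ≤ d) (hψ : IsExteriorMap (multibrotSet d) ψ) {ζ c : ℂ}
    (hζ : ‖ζ‖ = 1) (hc : c ∈ Imp ψ ζ) : c ∈ frontier (multibrotSet d) := by
  have hdr : (2 : ℝ) ≤ d := by exact_mod_cast hd
  have hd1 : (0 : ℝ) < (d : ℝ) - 1 := by linarith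
  obtain ⟨U, hU, hUc⟩ := mapClusterPt_iff_ultrafilter.1 hc
  have hev : ∀ᶠ w in (U : Filter ℂ), 1 < ‖w‖ := hU self_mem_nhdsWithin
  have hTw : Tendsto (fun w : ℂ => w) U (𝓝 ζ) := hU.trans nhdsWithin_le_nhds
  have hM : c ∈ multibrotSet d := by
    rw [mem_multibrot_iff hd]
    intro k
    rcases k with _ | k
    · rw [P_zero, norm_zero]; norm_num
    have h1 : Tendsto (fun w => ‖P d (k + 1) (ψ w)‖) U (𝓝 ‖P d (k + 1) c‖) := by
      have hcont : Continuous (P d (k + 1)) := by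
        have h : ∀ j : ℕ, Continuous (P d j) := by
          intro j
          induction j with
          | zero => exact continuous_const
          | succ j ih =>
            have : P d (j + 1) = fun c => P d j c ^ d + c := funext fun c => P_succ d j c
            rw [this]
            fun_prop
        exact h _
      exact ((hcont.norm.tendsto c).comp hUc)
    have h2 : Tendsto (fun w : ℂ => ‖w‖ ^ (d ^ k) * Real.exp (Real.log 2 / (d - 1))) U
        (𝓝 (‖ζ‖ ^ (d ^ k) * Real.exp (Real.log 2 / (d - 1)))) :=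
      (hTw.norm.pow _).mul_const _
    have h3 := le_of_tendsto_of_tendsto h1 h2 (by
      filter_upwards [hev] with w hw
      have h4 := green_up hd hψ k hw
      have hP : 0 < ‖P d (k + 1) (ψ w)‖ :=
        norm_pos_iff.2 (Pool.Agent.W677.MB.P_ne (psi_notMem hψ hw) (by omega))
      have hw0 : 0 < ‖w‖ := by linarith
      rw [← Real.log_le_log_iff hP (by positivity), Real.log_mul (by positivity) (by positivity),
        Real.log_exp, Real.log_pow]
      push_cast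
      linarith)
    rw [hζ, one_pow, one_mul] at h3
    refine h3.trans ?_
    rw [← Real.le_log_iff_exp_le (by norm_num)]
    apply div_le_self (Real.log_nonneg (by norm_num))
    linarith
  rw [(isCompact_multibrot hd).isClosed.frontier_eq, mem_diff]
  refine ⟨hM, fun hint => ?_⟩
  have h1 : ∀ᶠ w in (U : Filter ℂ), ψ w ∈ interior (multibrotSet d) :=
    hUc (isOpen_interior.mem_nhds hint)
  obtain ⟨w, h2, h3⟩ := (h1.and hev).exists
  exact psi_notMem hψ h3 (interior_subset h2)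

/-- Every boundary point belongs to an impression. -/
theorem exists_imp (hd : 2 ≤ d) (hψ : IsExteriorMap (multibrotSet d) ψ) {c : ℂ}
    (hc : c ∈ frontier (multibrotSet d)) : ∃ ζ : ℂ, ‖ζ‖ = 1 ∧ c ∈ Imp ψ ζ := by
  have hdr : (2 : ℝ) ≤ d := by exact_mod_cast hd
  have hd1 : (0 : ℝ) < (d : ℝ) - 1 := by linarith
  have hMc := (isCompact_multibrot hd).isClosed
  have hM : c ∈ multibrotSet d := hMc.frontier_subset hc
  obtain ⟨A, hA⟩ := rect hd hψ
  have hcl : c ∈ closure (multibrotSet d)ᶜ := by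
    rw [closure_compl]
    exact hc.2
  obtain ⟨V, hV1, hV2⟩ := mem_closure_iff_ultrafilter.1 hcl
  have hinv : ∀ y : ℂ, ∃ w : ℂ, y ∉ multibrotSet d → (1 < ‖w‖ ∧ ψ w = y) := by
    intro y
    by_cases hy : y ∈ multibrotSet d
    · exact ⟨0, fun h => absurd hy h⟩
    · have h1 : y ∈ ψ '' {z | 1 < ‖z‖} := by
        rw [hψ.image]
        exact hy
      obtain ⟨w, hw, h2⟩ := h1
      exact ⟨w, fun _ => ⟨hw, h2⟩⟩
  choose φ hφ using hinv
  obtain ⟨r, hr⟩ : ∃ r : ℝ, r = Real.exp (Real.log (4 * d) / (d - 1)) * (‖c‖ + 1) := ⟨_, rfl⟩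
  have hbd : ∀ᶠ y in (V : Filter ℂ), φ y ∈ closedBall (0 : ℂ) r := by
    have h1 : ∀ᶠ y in (V : Filter ℂ), y ∈ ball c 1 := hV2 (ball_mem_nhds c one_pos)
    filter_upwards [h1, hV1] with y hy1 hy2
    obtain ⟨h2, h3⟩ := hφ y hy2
    obtain ⟨h4, h5, -, -⟩ := hA _ h2
    rw [mem_closedBall_zero_iff, hr]
    have h6 : ‖y‖ ≤ ‖c‖ + 1 := by
      rw [mem_ball, dist_eq_norm] at hy1
      have := norm_le_norm_add_norm_sub' y c
      linarith
    have h7 : ‖y‖ = ‖φ y‖ * Real.exp (A (φ y)).re := by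
      rw [← Complex.norm_exp, ← norm_mul, ← h4, h3]
    have h8 : ‖φ y‖ = ‖y‖ * Real.exp (-(A (φ y)).re) := by
      rw [h7, mul_assoc, ← Real.exp_add, add_neg_cancel, Real.exp_zero, mul_one]
    rw [h8, mul_comm]
    have h9 : Real.exp (-(A (φ y)).re) ≤ Real.exp (Real.log (4 * d) / (d - 1)) :=
      Real.exp_le_exp.2 (by linarith)
    gcongr
  obtain ⟨ζ, -, hζ⟩ := (isCompact_closedBall (0 : ℂ) r).ultrafilter_le_nhds (V.map φ) (by
    rw [le_principal_iff]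
    exact hbd)
  have hTφ : Tendsto φ V (𝓝 ζ) := hζ
  have hge : 1 ≤ ‖ζ‖ := by
    refine ge_of_tendsto hTφ.norm ?_
    filter_upwards [hV1] with y hy
    exact (hφ y hy).1.le
  have hψφ : ψ ∘ φ =ᶠ[(V : Filter ℂ)] id := by
    filter_upwards [hV1] with y hy
    exact (hφ y hy).2
  have hTc : Tendsto (ψ ∘ φ) V (𝓝 c) := by
    refine Tendsto.congr' hψφ.symm ?_
    exact hV2
  have hζ1 : ‖ζ‖ = 1 := by
    by_contra hne
    have hgt : 1 < ‖ζ‖ := lt_of_le_of_ne hge (Ne.symm hne)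
    have h1 : ContinuousAt ψ ζ :=
      (hψ.diff.differentiableAt (isOpen_S.mem_nhds hgt)).continuousAt
    have h2 : Tendsto (ψ ∘ φ) V (𝓝 (ψ ζ)) := h1.tendsto.comp hTφ
    have h3 := tendsto_nhds_unique hTc h2
    exact psi_notMem hψ hgt (h3 ▸ hM)
  refine ⟨ζ, hζ1, mapClusterPt_iff_ultrafilter.2 ⟨V.map φ, ?_, hTc⟩⟩
  rw [nhdsWithin, le_inf_iff, le_principal_iff]
  refine ⟨hTφ, ?_⟩
  show ∀ᶠ y in (V : Filter ℂ), 1 < ‖φ y‖
  filter_upwards [hV1] with y hy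
  exact (hφ y hy).1

/-- Two points of one impression. -/
theorem imp_dist (hd : 2 ≤ d) (hψ : IsExteriorMap (multibrotSet d) ψ) {ζ c c' : ℂ}
    (hζ : ‖ζ‖ = 1) (hc : c ∈ Imp ψ ζ) (hc' : c' ∈ Imp ψ ζ) :
    ‖c - c'‖ ≤ 2 ^ (1 / ((d : ℝ) - 1)) *
      (√(Real.log (8 * d) ^ 2 + 4 * Real.pi ^ 2) / (d - 1)) := by
  have hdr : (2 : ℝ) ≤ d := by exact_mod_cast hd
  have hd1 : (0 : ℝ) < (d : ℝ) - 1 := by linarith
  obtain ⟨a, h1, h2, h3, h4⟩ := imp_log hd hψ hc
  obtain ⟨b, h5, h6, h7, h8⟩ := imp_log hd hψ hc'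
  have h9 : c - c' = ζ * (Complex.exp a - Complex.exp b) := by rw [h1, h5]; ring
  rw [h9, norm_mul, hζ, one_mul]
  refine (exp_sub_exp h3 h7).trans ?_
  have h10 : Real.exp (Real.log 2 / (d - 1)) = 2 ^ (1 / ((d : ℝ) - 1)) := by
    rw [Real.rpow_def_of_pos (by norm_num), mul_one_div]
  rw [h10]
  apply mul_le_mul_of_nonneg_left _ (by positivity)
  rw [Complex.norm_eq_sqrt_sq_add_sq]
  rw [← Real.sqrt_sq hd1.le, ← Real.sqrt_div (by positivity)]
  apply Real.sqrt_le_sqrt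
  rw [le_div_iff₀ (by positivity)]
  have hlog : Real.log (8 * d) = Real.log (4 * d) + Real.log 2 := by
    rw [← Real.log_mul (by positivity) (by norm_num)]
    congr 1
    ring
  have e1 : |((a - b).re) * ((d : ℝ) - 1)| ≤ Real.log (8 * d) := by
    rw [Complex.sub_re, hlog, abs_le]
    rw [← neg_div, div_le_iff₀ hd1] at h2 h6
    rw [le_div_iff₀ hd1] at h3 h7
    constructor <;> nlinarith
  have e2 : |((a - b).im) * ((d : ℝ) - 1)| ≤ 2 * Real.pi := by
    rw [abs_le, ← neg_div, div_le_iff₀ hd1, le_div_iff₀ hd1] at h4 h8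
    rw [Complex.sub_im, abs_le]
    constructor <;> nlinarith
  have e3 := sq_le_sq' (abs_le.1 e1).1 (abs_le.1 e1).2
  have e4 := sq_le_sq' (abs_le.1 e2).1 (abs_le.1 e2).2
  nlinarith

/-- The size of the critical orbit. -/
theorem imp_near (hd : 2 ≤ d) (hψ : IsExteriorMap (multibrotSet d) ψ) {ζ c : ℂ}
    (hζ : ‖ζ‖ = 1) (hc : c ∈ Imp ψ ζ) : ‖c - ζ‖ ≤ (Real.log d + 8) / (d - 1) := by
  obtain ⟨U, hU, hUc⟩ := mapClusterPt_iff_ultrafilter.1 hc
  have hev : ∀ᶠ w in (U : Filter ℂ), 1 < ‖w‖ := hU self_mem_nhdsWithin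
  have hTw : Tendsto (fun w : ℂ => w) U (𝓝 ζ) := hU.trans nhdsWithin_le_nhds
  have h1 : Tendsto (fun w => ‖ψ w - w‖) U (𝓝 ‖c - ζ‖) := (hUc.sub hTw).norm
  have h2 : Tendsto (fun w : ℂ => (Real.log d + 8) / (d - 1) * ‖w‖) U
      (𝓝 ((Real.log d + 8) / (d - 1) * ‖ζ‖)) := hTw.norm.const_mul _
  have h3 := le_of_tendsto_of_tendsto h1 h2 (by
    filter_upwards [hev] with w hw
    exact near_id hd hψ hw)
  rwa [hζ, mul_one] at h3

end Pool.Agent.U552.Fine
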