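import Pool.Agent.U552.FineImp

set_option autoImplicit false

/-! # The parameter of angle zero -/

namespace Pool.Agent.U552.Fine

open Complex Metric Set Filter Topology Bornology N62a1eb23
open Pool.Agent.H712R2 Pool.Agent.H713R2 Pool.Agent.R240.Ext

variable {d : ℕ} {ψ : ℂ → ℂ}

/-- The largest real parameter of the Multibrot set. -/
noncomputable def c0 (d : ℕ) : ℝ := (1 - 1 / d) * (d : ℝ) ^ (-(1 / ((d : ℝ) - 1)))

noncomputable def t0 (d : ℕ) : ℝ := (d : ℝ) ^ (-(1 / ((d : ℝ) - 1)))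

theorem t0_pow (hd : 2 ≤ d) : t0 d ^ (d - 1) = 1 / d := by
  have hdr : (2 : ℝ) ≤ d := by exact_mod_cast hd
  have hd1 : (0 : ℝ) < (d : ℝ) - 1 := by linarith
  unfold t0
  rw [← Real.rpow_natCast, ← Real.rpow_mul (by linarith), cast_pred hd, neg_mul,
    one_div_mul_cancel hd1.ne', Real.rpow_neg (by linarith), Real.rpow_one, one_div]

theorem t0_pos (hd : 2 ≤ d) : 0 < t0 d := by
  have hdr : (2 : ℝ) ≤ d := by exact_mod_cast hd
  unfold t0
  positivity

theorem t0_le (hd : 2 ≤ d) : t0 d ≤ 1 := by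
  have hdr : (2 : ℝ) ≤ d := by exact_mod_cast hd
  have hd1 : (0 : ℝ) < (d : ℝ) - 1 := by linarith
  unfold t0
  apply Real.rpow_le_one_of_one_le_of_nonpos (by linarith)
  rw [Left.neg_nonpos_iff]
  positivity

theorem t0_powd (hd : 2 ≤ d) : t0 d ^ d = t0 d * (1 / d) := by
  have h : t0 d ^ d = t0 d ^ (d - 1) * t0 d := by
    rw [← pow_succ]
    congr 1
    omega
  rw [h, t0_pow hd, mul_comm]

theorem c0_eq (hd : 2 ≤ d) : c0 d = t0 d - t0 d ^ d := by
  rw [t0_powd hd]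
  unfold c0 t0
  ring

theorem c0_nonneg (hd : 2 ≤ d) : 0 ≤ c0 d := by
  have hdr : (2 : ℝ) ≤ d := by exact_mod_cast hd
  unfold c0
  have : 1 / (d : ℝ) ≤ 1 := by
    rw [div_le_one (by linarith)]
    linarith
  have h2 : 0 < (d : ℝ) ^ (-(1 / ((d : ℝ) - 1))) := by positivity
  nlinarith

/-- Bernoulli -/
theorem bern (hd : 2 ≤ d) {x : ℝ} (hx : 0 ≤ x) : x - c0 d ≤ x ^ d := by
  have hdr : (2 : ℝ) ≤ d := by exact_mod_cast hd
  have ht := t0_pos hd
  have h1 := one_add_mul_le_pow (a := x / t0 d - 1) (by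
    have : 0 ≤ x / t0 d := by positivity
    linarith) d
  have h2 : (1 + (x / t0 d - 1)) ^ d = x ^ d / t0 d ^ d := by
    rw [add_sub_cancel, div_pow]
  rw [h2, le_div_iff₀ (by positivity)] at h1
  have h3 : (1 + (d : ℝ) * (x / t0 d - 1)) * t0 d ^ d = t0 d ^ d + (x - t0 d) := by
    rw [t0_powd hd]
    field_simp
  rw [h3] at h1
  rw [c0_eq hd]
  linarith

/-- The real orbit. -/
noncomputable def xr (d : ℕ) (c : ℝ) (k : ℕ) : ℝ := (fun x : ℝ => x ^ d + c)^[k] 0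

theorem xr_succ (d : ℕ) (c : ℝ) (k : ℕ) : xr d c (k + 1) = xr d c k ^ d + c := by
  unfold xr
  rw [Function.iterate_succ_apply']

theorem P_real (d : ℕ) (c : ℝ) (k : ℕ) : P d k (c : ℂ) = (xr d c k : ℂ) := by
  induction k with
  | zero => rw [P_zero]; simp [xr]
  | succ k ih => rw [P_succ, xr_succ, ih]; push_cast; ring

theorem mem_c0 (hd : 2 ≤ d) : ((c0 d : ℝ) : ℂ) ∈ multibrotSet d := by
  rw [mem_multibrot_iff hd]
  have h : ∀ k, 0 ≤ xr d (c0 d) k ∧ xr d (c0 d) k ≤ t0 d := by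
    intro k
    induction k with
    | zero =>
      have : xr d (c0 d) 0 = 0 := rfl
      rw [this]
      exact ⟨le_rfl, (t0_pos hd).le⟩
    | succ k ih =>
      rw [xr_succ]
      have h0 := c0_nonneg hd
      refine ⟨by have := pow_nonneg ih.1 d; linarith, ?_⟩
      have h1 : xr d (c0 d) k ^ d ≤ t0 d ^ d := pow_le_pow_left₀ ih.1 ih.2 d
      have := c0_eq hd
      linarith
  intro k
  rw [P_real, Complex.norm_real, Real.norm_eq_abs, abs_of_nonneg (h k).1]
  have := t0_le hd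
  linarith [(h k).2]

theorem notMem_of_gt (hd : 2 ≤ d) {c : ℝ} (hc : c0 d < c) : (c : ℂ) ∉ multibrotSet d := by
  intro hmem
  rw [mem_multibrot_iff hd] at hmem
  have h0 := c0_nonneg hd
  have h : ∀ k : ℕ, (k : ℝ) * (c - c0 d) ≤ xr d c k := by
    intro k
    induction k with
    | zero =>
      have : xr d c 0 = 0 := rfl
      rw [this]
      simp
    | succ k ih =>
      rw [xr_succ]
      have h1 : 0 ≤ xr d c k := by
        refine le_trans ?_ ih
        apply mul_nonneg (Nat.cast_nonneg k)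
        linarith
      have h2 := bern hd h1
      push_cast
      nlinarith
  obtain ⟨k, hk⟩ := exists_nat_gt (2 / (c - c0 d))
  have h1 : 0 < c - c0 d := by linarith
  rw [div_lt_iff₀ h1] at hk
  have h2 := h k
  have h3 := hmem k
  rw [P_real, Complex.norm_real, Real.norm_eq_abs] at h3
  have h4 := le_abs_self (xr d c k)
  linarith

theorem c0_frontier (hd : 2 ≤ d) : ((c0 d : ℝ) : ℂ) ∈ frontier (multibrotSet d) := by
  rw [(isCompact_multibrot hd).isClosed.frontier_eq, mem_diff]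
  refine ⟨mem_c0 hd, fun hint => ?_⟩
  rw [mem_interior_iff_mem_nhds, Metric.mem_nhds_iff] at hint
  obtain ⟨ε, hε, h⟩ := hint
  have h1 : ((c0 d + ε / 2 : ℝ) : ℂ) ∈ ball ((c0 d : ℝ) : ℂ) ε := by
    rw [mem_ball, dist_eq_norm, ← Complex.ofReal_sub, Complex.norm_real, Real.norm_eq_abs,
      add_sub_cancel_left, abs_of_pos (by positivity)]
    linarith
  exact notMem_of_gt hd (by linarith) (h h1)

theorem c0_bound (hd : 2 ≤ d) : Real.log d / (d - 1) - (Real.log d / (d - 1)) ^ 2 / 2 ≤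
    1 - c0 d := by
  have hdr : (2 : ℝ) ≤ d := by exact_mod_cast hd
  have hd1 : (0 : ℝ) < (d : ℝ) - 1 := by linarith
  obtain ⟨t, ht⟩ : ∃ t : ℝ, t = Real.log d / (d - 1) := ⟨_, rfl⟩
  have ht0 : 0 ≤ t := by
    rw [ht]
    exact div_nonneg (Real.log_nonneg (by linarith)) hd1.le
  have h1 : t0 d = Real.exp (-t) := by
    unfold t0
    rw [Real.rpow_def_of_pos (by linarith), ht]
    congr 1
    ring
  have h2 : c0 d ≤ t0 d := by
    rw [c0_eq hd]
    have := pow_nonneg (t0_pos hd).le d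
    linarith
  have h3 : Real.exp (-t) ≤ 1 - t + t ^ 2 / 2 := by
    have h4 := Real.quadratic_le_exp_of_nonneg ht0
    have h5 : Real.exp (-t) = 1 / Real.exp t := by rw [Real.exp_neg, one_div]
    rw [h5, div_le_iff₀ (Real.exp_pos t)]
    have h6 : 0 ≤ 1 - t + t ^ 2 / 2 := by nlinarith [sq_nonneg (t - 1)]
    have h7 : (1 - t + t ^ 2 / 2) * (1 + t + t ^ 2 / 2) ≤ (1 - t + t ^ 2 / 2) * Real.exp t := by
      gcongr
    have h8 : (1 - t + t ^ 2 / 2) * (1 + t + t ^ 2 / 2) = 1 + t ^ 4 / 4 := by ring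
    have h9 : 0 ≤ t ^ 4 / 4 := by positivity
    linarith
  rw [← ht]
  linarith

/-- Sharpness. -/
theorem sharp (hd : 2 ≤ d) (hψ : IsExteriorMap (multibrotSet d) ψ) {η : ℝ}
    (hη : η < 1 - c0 d) : ∃ w : ℂ, 1 < ‖w‖ ∧ η * ‖w‖ < ‖ψ w - w‖ := by
  obtain ⟨c, hc1, hc2⟩ := exists_between (show c0 d < 1 - η by linarith)
  have hc0 := c0_nonneg hd
  have h1 : (c : ℂ) ∈ ψ '' {z | 1 < ‖z‖} := by
    rw [hψ.image]
    exact notMem_of_gt hd hc1
  obtain ⟨w, hw, h2⟩ := h1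
  have hw1 : 1 < ‖w‖ := hw
  refine ⟨w, hw1, ?_⟩
  have h3 : ‖w‖ - c ≤ ‖ψ w - w‖ := by
    rw [h2, norm_sub_rev]
    have := norm_sub_norm_le w (c : ℂ)
    rwa [Complex.norm_real, Real.norm_eq_abs, abs_of_pos (by linarith)] at this
  nlinarith

end Pool.Agent.U552.Fine
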