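import Pool.Agent.R240.ExtLog

set_option autoImplicit false

/-! # The fine shape of the exterior maps of the Multibrot sets -/

namespace Pool.Agent.U552.Fine

open Complex Metric Set Filter Topology Bornology N62a1eb23
open Pool.Agent.H712R2 Pool.Agent.H713R2 Pool.Agent.R240.Ext

variable {d : ℕ} {ψ : ℂ → ℂ}

theorem cdiv_le {a b : ℝ} (h : ∀ δ : ℝ, 0 < δ → a ≤ b + δ) : a ≤ b :=
  le_of_forall_pos_le_add h

/-- The size and the argument of every iterate, on the whole complement. -/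
theorem all_orders (hd : 2 ≤ d) (hψ : IsExteriorMap (multibrotSet d) ψ) (k : ℕ) {w : ℂ}
    (hw : 1 < ‖w‖) :
    ∃ E : ℂ, P d (k + 1) (ψ w) = w ^ (d ^ k) * Complex.exp E ∧
      -(Real.log (4 * d * (15 * d) ^ k) / (d - 1)) ≤ E.re ∧ E.re ≤ Real.log 2 / (d - 1) ∧
      ‖E‖ ≤ 4 * (Real.log (4 * d * (15 * d) ^ k) / (d - 1)) / Real.pi *
        -Real.log (1 - ‖w‖⁻¹ ^ (d ^ (k + 1) - 1)) := by
  obtain ⟨β, hβ⟩ := exists_beta (d := d) hd
  have hdr : (2 : ℝ) ≤ d := by exact_mod_cast hd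
  have hd1 : (0 : ℝ) < (d : ℝ) - 1 := by linarith
  obtain ⟨g, hg, hge⟩ := H113G.J_schottky.exists_log (BB_diff hβ.diff k (d := d))
    (fun z hz => Pool.Agent.W677.MB.BB_ne hd hβ k hz)
  have h0 : (0 : ℂ) ∈ ball (0 : ℂ) 1 := mem_ball_self one_pos
  have hg0 : Complex.exp (g 0) = 1 := by
    rw [hge 0 h0, BB_at_zero hd, hβ.zero, one_pow]
  obtain ⟨G, hG⟩ : ∃ G : ℂ → ℂ, G = fun z => g z - g 0 := ⟨_, rfl⟩
  have hGd : DifferentiableOn ℂ G (ball 0 1) := by rw [hG]; exact hg.sub_const _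
  have hG0 : G 0 = 0 := by rw [hG]; exact sub_self _
  have hexp : ∀ z ∈ ball (0 : ℂ) 1, Complex.exp (G z) = BB d β k z := by
    intro z hz
    rw [hG]
    show Complex.exp (g z - g 0) = _
    rw [Complex.exp_sub, hg0, div_one, hge z hz]
  obtain ⟨ε, hε⟩ : ∃ ε : ℝ, ε = Real.log (4 * d * (15 * d) ^ k) / (d - 1) := ⟨_, rfl⟩
  have h15 : (1 : ℝ) ≤ (15 * d) ^ k := one_le_pow₀ (by linarith)
  have hlogpos : Real.log 2 ≤ Real.log (4 * d * (15 * d) ^ k) := by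
    apply Real.log_le_log (by norm_num)
    nlinarith
  have hl2 : 0 < Real.log 2 := Real.log_pos (by norm_num)
  have hε0 : 0 < ε := by
    rw [hε]
    exact div_pos (by linarith) hd1
  -- the real part
  have hre : ∀ v : ℂ, 1 < ‖v‖ → -ε ≤ (G v⁻¹).re ∧ (G v⁻¹).re ≤ Real.log 2 / (d - 1) := by
    intro v hv
    obtain ⟨hx, hx0⟩ := inv_mem_ball hv
    have h1 : (G v⁻¹).re = Real.log ‖P d (k + 1) (ψ v)‖ - d ^ k * Real.log ‖v‖ := by
      have h2 : ‖BB d β k v⁻¹‖ = Real.exp (G v⁻¹).re := by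
        rw [← hexp _ hx, Complex.norm_exp]
      rw [BB_psi hd hβ hψ k hx hx0, inv_inv, norm_mul, norm_pow, norm_inv] at h2
      have hv0 : 0 < ‖v‖ := by linarith
      have hP : 0 < ‖P d (k + 1) (ψ v)‖ :=
        norm_pos_iff.2 (Pool.Agent.W677.MB.P_ne (psi_notMem hψ hv) (by omega))
      have h3 := congrArg Real.log h2
      rw [Real.log_mul (by positivity) hP.ne', Real.log_pow, Real.log_inv, Real.log_exp] at h3
      push_cast at h3
      linarith
    rw [h1, hε]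
    exact ⟨green_low hd hψ k hv, green_up hd hψ k hv⟩
  have hreG : ∀ x ∈ ball (0 : ℂ) 1, |(G x).re| ≤ ε := by
    intro x hx
    rcases eq_or_ne x 0 with rfl | hx0
    · rw [hG0]; simpa using hε0.le
    · have hv : 1 < ‖x⁻¹‖ := one_lt_norm_inv hx hx0
      obtain ⟨h1, h2⟩ := hre x⁻¹ hv
      rw [inv_inv] at h1 h2
      rw [abs_le]
      refine ⟨h1, h2.trans ?_⟩
      rw [hε]
      exact div_le_div_of_nonneg_right hlogpos hd1.le
  -- the order at the origin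
  obtain ⟨N, hN⟩ : ∃ N : ℕ, N = d ^ (k + 1) - 1 := ⟨_, rfl⟩
  have hN0 : N ≠ 0 := by
    have : 1 < d ^ (k + 1) := Nat.one_lt_pow (by omega) (by omega)
    omega
  obtain ⟨C, hC⟩ := hβ.order k
  have hcont : ContinuousAt G 0 := (hGd.differentiableAt (isOpen_ball.mem_nhds h0)).continuousAt
  obtain ⟨δ, hδ, hδ2⟩ : ∃ δ : ℝ, 0 < δ ∧ ∀ x ∈ ball (0 : ℂ) δ, ‖G x‖ ≤ 2 * C * ‖x‖ ^ N := by
    have h1 := Metric.continuousAt_iff.1 hcont (1 / 2) (by norm_num)
    obtain ⟨δ, hδ, h1⟩ := h1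
    refine ⟨min δ (1 / 2), by positivity, fun x hx => ?_⟩
    rw [mem_ball_zero_iff, lt_min_iff] at hx
    have h2 : ‖G x‖ < 1 / 2 := by
      have := @h1 x (by rw [dist_zero_right]; exact hx.1)
      rwa [hG0, dist_zero_right] at this
    have h3 := hC x (by rw [mem_ball_zero_iff]; exact hx.2)
    rw [← hexp x (by rw [mem_ball_zero_iff]; linarith [hx.2]), ← hN] at h3
    -- `‖exp u - 1‖ ≥ ‖u‖ / 2` for `‖u‖ ≤ 1/2`
    have h4 : ‖G x‖ / 2 ≤ ‖Complex.exp (G x) - 1‖ := by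
      have h5 := Complex.norm_exp_sub_one_sub_id_le (x := G x) (by linarith)
      have h6 : ‖G x‖ ≤ ‖Complex.exp (G x) - 1‖ + ‖Complex.exp (G x) - 1 - G x‖ := by
        have h7 := norm_sub_le (Complex.exp (G x) - 1) (Complex.exp (G x) - 1 - G x)
        have h8 : (Complex.exp (G x) - 1) - (Complex.exp (G x) - 1 - G x) = G x := by ring
        rwa [h8] at h7
      nlinarith [norm_nonneg (G x)]
    linarith
  obtain ⟨hx, hx0⟩ := inv_mem_ball hw
  refine ⟨G w⁻¹, ?_, ?_, (hre w hw).2, ?_⟩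
  · have h1 := BB_psi hd hβ hψ k hx hx0
    rw [inv_inv] at h1
    rw [hexp _ hx, h1, ← mul_assoc, ← mul_pow, mul_inv_cancel₀ (by
      rintro rfl
      rw [norm_zero] at hw
      linarith), one_pow, one_mul]
  · rw [← hε]
    exact (hre w hw).1
  · rw [← hε, ← hN]
    have hlog : 0 ≤ -Real.log (1 - ‖w‖⁻¹ ^ N) := by
      have h1 : ‖w‖⁻¹ < 1 := inv_lt_one_of_one_lt₀ hw
      have h2 : 0 < ‖w‖⁻¹ := inv_pos.2 (by linarith)
      have h3 : ‖w‖⁻¹ ^ N < 1 := pow_lt_one₀ h2.le h1 hN0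
      have h4 : 0 < ‖w‖⁻¹ ^ N := by positivity
      have := Real.log_nonpos (x := 1 - ‖w‖⁻¹ ^ N) (by linarith) (by linarith)
      linarith
    have hstrip : ∀ η : ℝ, 0 < η → ‖G w⁻¹‖ ≤ 4 * (ε + η) / Real.pi *
        -Real.log (1 - ‖w‖⁻¹ ^ N) := by
      intro η hη
      have h1 := Pool.Agent.R240.Strip.strip hGd (ε := ε + η) (by linarith)
        (fun x hx => by have := hreG x hx; linarith) hN0 hδ hδ2 hx
      rwa [norm_inv] at h1
    refine le_of_forall_pos_le_add fun θ hθ => ?_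
    obtain ⟨L, hL⟩ : ∃ L : ℝ, L = -Real.log (1 - ‖w‖⁻¹ ^ N) := ⟨_, rfl⟩
    rw [← hL] at hlog hstrip ⊢
    have hπ := Real.pi_pos
    have h1 := hstrip (θ * Real.pi / (4 * (L + 1))) (by positivity)
    refine h1.trans ?_
    have h2 : 4 * (ε + θ * Real.pi / (4 * (L + 1))) / Real.pi * L =
        4 * ε / Real.pi * L + θ * (L / (L + 1)) := by
      field_simp
    rw [h2]
    have h3 : L / (L + 1) ≤ 1 := by
      rw [div_le_one (by linarith)]
      linarith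
    nlinarith

end Pool.Agent.U552.Fine
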