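import Pool.Agent.W187.UR.NF

set_option autoImplicit false

/-! # The constants of the rotated sums -/

namespace Pool.Agent.U552.Rot

open Filter Topology Set MeasureTheory
open Pool.Agent.W187.UR Pool.Agent.W351.UR

theorem Lam_int (γ : ℝ) : IntegrableOn (fun t : ℝ =>
    (Complex.exp (-(t : ℂ)) - Complex.exp ((γ * t : ℝ) * Complex.I) *
      ((Real.Gamma (1 + t))⁻¹ : ℝ)) / t) (Ioi 0) := cq_int γ

/-- the real part of the integrand -/
theorem re_integrand (γ t : ℝ) :
    ((Complex.exp (-(t : ℂ)) - Complex.exp ((γ * t : ℝ) * Complex.I) *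
      ((Real.Gamma (1 + t))⁻¹ : ℝ)) / t).re =
    (Real.exp (-t) - Real.cos (γ * t) * (Real.Gamma (1 + t))⁻¹) / t := by
  rw [Complex.div_ofReal_re, Complex.sub_re, Complex.re_mul_ofReal, Complex.exp_ofReal_mul_I_re,
    ← Complex.ofReal_neg, Complex.exp_ofReal_re]

theorem Lam_re (γ : ℝ) : (Lam γ).re =
    ∫ t in Ioi (0 : ℝ), (Real.exp (-t) - Real.cos (γ * t) * (Real.Gamma (1 + t))⁻¹) / t := by
  unfold Lam
  have h := integral_re (𝕜 := ℂ) (Lam_int γ)
  simp only [RCLike.re_eq_complex_re] at h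
  rw [← h]
  refine integral_congr_ae (Eventually.of_forall fun t => ?_)
  exact re_integrand γ t

theorem Lam_re_int (γ : ℝ) : IntegrableOn (fun t : ℝ =>
    (Real.exp (-t) - Real.cos (γ * t) * (Real.Gamma (1 + t))⁻¹) / t) (Ioi 0) := by
  have h := (Lam_int γ).re
  simp only [RCLike.re_eq_complex_re] at h
  refine h.congr (Eventually.of_forall fun t => ?_)
  exact re_integrand γ t

theorem diff_int (γ : ℝ) : IntegrableOn (fun t : ℝ =>
    (1 - Real.cos (γ * t)) * ((Real.Gamma (1 + t))⁻¹ / t)) (Ioi 0) := by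
  refine ((Lam_re_int γ).sub (Lam_re_int 0)).congr (Eventually.of_forall fun t => ?_)
  simp only [Pi.sub_apply, zero_mul, Real.cos_zero]
  ring

theorem Lam_re_diff (γ : ℝ) : (Lam γ).re - (Lam 0).re =
    ∫ t in Ioi (0 : ℝ), (1 - Real.cos (γ * t)) * ((Real.Gamma (1 + t))⁻¹ / t) := by
  rw [Lam_re, Lam_re, ← integral_sub (Lam_re_int γ) (Lam_re_int 0)]
  refine integral_congr_ae (Eventually.of_forall fun t => ?_)
  simp only [zero_mul, Real.cos_zero]
  ring

theorem gamma_le_one {t : ℝ} (h0 : 0 ≤ t) (h1 : t ≤ 1) : Real.Gamma (1 + t) ≤ 1 := by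
  have h := Real.convexOn_Gamma.2 (show (1 : ℝ) ∈ Ioi 0 by norm_num)
    (show (2 : ℝ) ∈ Ioi 0 by norm_num) (show (0 : ℝ) ≤ 1 - t by linarith) h0
    (show (1 - t) + t = 1 by ring)
  simp only [smul_eq_mul, mul_one, Real.Gamma_one, Real.Gamma_two] at h
  have h2 : (1 - t) + t * 2 = 1 + t := by ring
  rw [h2] at h
  linarith

theorem cont_h {ε : ℝ} (hε : 0 < ε) : ContinuousOn
    (fun t : ℝ => (Real.Gamma (1 + t))⁻¹ / t) (Icc ε 1) := by
  intro t ht
  have ht0 : 0 < t := lt_of_lt_of_le hε ht.1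
  have h1 : ContinuousAt (fun t : ℝ => Real.Gamma (1 + t)) t := by
    have h2 : ContinuousAt Real.Gamma (1 + t) := by
      refine (Real.differentiableAt_Gamma fun m => ?_).continuousAt
      have : (0 : ℝ) ≤ m := Nat.cast_nonneg m
      linarith
    exact ContinuousAt.comp (g := Real.Gamma) (f := fun t : ℝ => 1 + t) h2 (by fun_prop)
  exact ((h1.inv₀ (Real.Gamma_pos_of_pos (by linarith)).ne').div continuousAt_id
    ht0.ne').continuousWithinAt

/-- the oscillating part -/
theorem riemann_lebesgue {ε : ℝ} (hε : 0 < ε) : Tendsto (fun γ : ℝ =>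
    ∫ t in Ioc ε 1, Real.cos (γ * t) * ((Real.Gamma (1 + t))⁻¹ / t)) atTop (𝓝 0) := by
  obtain ⟨f, hf⟩ : ∃ f : ℝ → ℂ, f = (Ioc ε 1).indicator
    (fun t : ℝ => (((Real.Gamma (1 + t))⁻¹ / t : ℝ) : ℂ)) := ⟨_, rfl⟩
  have h1 := Real.tendsto_integral_exp_smul_cocompact f
  have h2 : Tendsto (fun γ : ℝ => -(γ / (2 * Real.pi))) atTop (cocompact ℝ) := by
    have h3 : Tendsto (fun γ : ℝ => -(γ / (2 * Real.pi))) atTop atBot :=
      tendsto_neg_atTop_atBot.comp (tendsto_id.atTop_div_const (by positivity))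
    exact h3.mono_right atBot_le_cocompact
  have h4 := (Complex.continuous_re.tendsto 0).comp (h1.comp h2)
  rw [Complex.zero_re] at h4
  refine h4.congr fun γ => ?_
  have hint : IntegrableOn (fun t : ℝ => (((Real.Gamma (1 + t))⁻¹ / t : ℝ) : ℂ)) (Ioc ε 1) := by
    have h5 : ContinuousOn (fun t : ℝ => (((Real.Gamma (1 + t))⁻¹ / t : ℝ) : ℂ)) (Icc ε 1) :=
      Complex.continuous_ofReal.comp_continuousOn (cont_h hε)
    exact h5.integrableOn_Icc.mono_set Ioc_subset_Icc_self
  have h6 : (fun v : ℝ => Real.fourierChar (-(v * -(γ / (2 * Real.pi)))) • f v) =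
      (Ioc ε 1).indicator (fun t : ℝ => Complex.exp ((γ * t : ℝ) * Complex.I) *
        (((Real.Gamma (1 + t))⁻¹ / t : ℝ) : ℂ)) := by
    funext v
    rw [hf]
    by_cases hv : v ∈ Ioc ε 1
    · rw [indicator_of_mem hv, indicator_of_mem hv, Circle.smul_def, smul_eq_mul,
        Real.fourierChar_apply]
      congr 2
      push_cast
      have hπ : (Real.pi : ℂ) ≠ 0 := by exact_mod_cast Real.pi_ne_zero
      field_simp
    · rw [indicator_of_notMem hv, indicator_of_notMem hv, smul_zero]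
  simp only [Function.comp_apply]
  rw [h6, integral_indicator measurableSet_Ioc]
  have h7 : IntegrableOn (fun t : ℝ => Complex.exp ((γ * t : ℝ) * Complex.I) *
        (((Real.Gamma (1 + t))⁻¹ / t : ℝ) : ℂ)) (Ioc ε 1) := by
    refine hint.bdd_mul (c := 1) (by fun_prop) (Eventually.of_forall fun t => ?_)
    rw [Complex.norm_exp_ofReal_mul_I]
  have h8 := integral_re (𝕜 := ℂ) h7
  simp only [RCLike.re_eq_complex_re] at h8
  rw [← h8]
  refine integral_congr_ae (Eventually.of_forall fun t => ?_)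
  simp only
  rw [Complex.re_mul_ofReal, Complex.exp_ofReal_mul_I_re]

/-- **The real parts of the constants tend to infinity.** -/
theorem Lam_re_tendsto : Tendsto (fun γ : ℝ => (Lam γ).re) atTop atTop := by
  rw [tendsto_atTop]
  intro C
  obtain ⟨ε, hε⟩ : ∃ ε : ℝ, ε = Real.exp (-(|C| + |(Lam 0).re| + 1)) := ⟨_, rfl⟩
  have hε0 : 0 < ε := by rw [hε]; exact Real.exp_pos _
  have hε1 : ε < 1 := by
    have ha := abs_nonneg C
    have hb := abs_nonneg (Lam 0).re
    have hc := Real.exp_lt_exp.2 (show -(|C| + |(Lam 0).re| + 1) < 0 by linarith)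
    rwa [Real.exp_zero, ← hε] at hc
  have h1 := riemann_lebesgue hε0
  have h2 : ∀ᶠ γ : ℝ in atTop, (∫ t in Ioc ε 1, Real.cos (γ * t) *
      ((Real.Gamma (1 + t))⁻¹ / t)) < 1 := h1.eventually_lt_const (by norm_num)
  filter_upwards [h2] with γ hγ
  have hsub : Ioc ε 1 ⊆ Ioi (0 : ℝ) := fun t ht => hε0.trans ht.1
  have hint : IntegrableOn (fun t : ℝ => (Real.Gamma (1 + t))⁻¹ / t) (Ioc ε 1) :=
    (cont_h hε0).integrableOn_Icc.mono_set Ioc_subset_Icc_self
  have hcos : IntegrableOn (fun t : ℝ => Real.cos (γ * t) * ((Real.Gamma (1 + t))⁻¹ / t))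
      (Ioc ε 1) := by
    refine hint.bdd_mul (c := 1) (by fun_prop) (Eventually.of_forall fun t => ?_)
    exact Real.abs_cos_le_one _
  have h3 : (∫ t in Ioc ε 1, (1 - Real.cos (γ * t)) * ((Real.Gamma (1 + t))⁻¹ / t)) ≤
      ∫ t in Ioi (0 : ℝ), (1 - Real.cos (γ * t)) * ((Real.Gamma (1 + t))⁻¹ / t) := by
    apply setIntegral_mono_set (diff_int γ)
    · refine (ae_restrict_iff' measurableSet_Ioi).2 (Eventually.of_forall fun t ht => ?_)
      have ht0 : 0 < t := ht
      have h4 := Real.cos_le_one (γ * t)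
      have h5 := Real.Gamma_pos_of_pos (show 0 < 1 + t by linarith)
      have h6 : 0 ≤ (Real.Gamma (1 + t))⁻¹ / t := by positivity
      exact mul_nonneg (by linarith) h6
    · exact hsub.eventuallyLE
  have h4 : (∫ t in Ioc ε 1, (1 - Real.cos (γ * t)) * ((Real.Gamma (1 + t))⁻¹ / t)) =
      (∫ t in Ioc ε 1, (Real.Gamma (1 + t))⁻¹ / t) -
        ∫ t in Ioc ε 1, Real.cos (γ * t) * ((Real.Gamma (1 + t))⁻¹ / t) := by
    rw [← integral_sub hint hcos]
    refine integral_congr_ae (Eventually.of_forall fun t => ?_)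
    simp only
    ring
  have h5 : -Real.log ε ≤ ∫ t in Ioc ε 1, (Real.Gamma (1 + t))⁻¹ / t := by
    have h6 : ∫ t in Ioc ε 1, t⁻¹ = -Real.log ε := by
      rw [← intervalIntegral.integral_of_le hε1.le, integral_inv_of_pos hε0 one_pos, one_div,
        Real.log_inv]
    rw [← h6]
    apply setIntegral_mono_on _ hint measurableSet_Ioc
    · intro t ht
      have ht0 : 0 < t := hε0.trans ht.1
      have h7 := gamma_le_one ht0.le ht.2
      have h8 := Real.Gamma_pos_of_pos (show 0 < 1 + t by linarith)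
      have h9 : 1 ≤ (Real.Gamma (1 + t))⁻¹ := (one_le_inv₀ h8).2 h7
      rw [inv_eq_one_div]
      gcongr
    · have h7 : ContinuousOn (fun t : ℝ => t⁻¹) (Icc ε 1) :=
        continuousOn_id.inv₀ fun t ht => (lt_of_lt_of_le hε0 ht.1).ne'
      exact h7.integrableOn_Icc.mono_set Ioc_subset_Icc_self
  have h6 : -Real.log ε = |C| + |(Lam 0).re| + 1 := by
    rw [hε, Real.log_exp]
    ring
  have h7 := Lam_re_diff γ
  have h8 := le_abs_self C
  have h9 := neg_abs_le (Lam 0).re
  linarith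

end Pool.Agent.U552.Rot
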