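import Pool.Agent.U552.LamRe

set_option autoImplicit false

/-! # The rotated law over number fields: finiteness, sign, two angles -/

namespace Pool.Agent.U552.Rot

open Filter Topology Set MeasureTheory IsDedekindDomain NumberField
open Pool.Agent.W187.UR Pool.Agent.W351.UR Pool.Agent.W189.NF

variable {K : Type} [Field K] [NumberField K] {E : WeierstrassCurve K} {F : ℂ → ℂ}

theorem real_orders (hF : IsCont E F) :
    {σ : ℝ | 1 ≤ σ ∧ meromorphicOrderAt F (σ : ℂ) ≠ 0}.Finite := by
  have E' := nfEP E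
  have hsub : {σ : ℝ | 1 ≤ σ ∧ meromorphicOrderAt F (σ : ℂ) ≠ 0} ⊆ Icc (1 : ℝ) 3 := by
    rintro σ ⟨h1, h2⟩
    refine ⟨h1, ?_⟩
    by_contra h3
    push Not at h3
    exact h2 (E'.order_right hF.mero hF.prod (by linarith))
  by_contra hinf
  obtain ⟨x, hx, hacc⟩ := Set.Infinite.exists_accPt_of_subset_isCompact hinf isCompact_Icc hsub
  have hmer := hF.mero x hx
  have htop := E'.order_ne_top hF.mero hF.prod (x := x) hx
  have h1 : ∀ᶠ z in 𝓝[≠] (x : ℂ), F z ≠ 0 :=
    (meromorphicOrderAt_ne_top_iff_eventually_ne_zero hmer).1 htop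
  have h2 : ∀ᶠ z in 𝓝[≠] (x : ℂ), meromorphicOrderAt F z = 0 := by
    filter_upwards [h1, hmer.eventually_analyticAt] with z hz hza
    rw [hza.meromorphicOrderAt_eq, hza.analyticOrderAt_eq_zero.2 hz]
    rfl
  have h3 : Tendsto (fun σ : ℝ => (σ : ℂ)) (𝓝[≠] x) (𝓝[≠] (x : ℂ)) := by
    refine tendsto_nhdsWithin_of_tendsto_nhds_of_eventually_within _
      (Complex.continuous_ofReal.continuousAt.tendsto.mono_left nhdsWithin_le_nhds) ?_
    filter_upwards [self_mem_nhdsWithin] with σ hσ
    intro h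
    exact hσ (Complex.ofReal_injective h)
  have h4 := h3.eventually h2
  rw [accPt_iff_frequently_nhdsNE] at hacc
  obtain ⟨σ, h5, h6⟩ := (hacc.and_eventually h4).exists
  exact h5.2 h6

theorem exp_pi_int (e : ℤ) : Complex.exp (Real.pi * e * Complex.I) = (-1 : ℂ) ^ e := by
  have h : (Real.pi * e * Complex.I : ℂ) = e * (Real.pi * Complex.I) := by ring
  rw [h, Complex.exp_int_mul, Complex.exp_pi_mul_I]

/-- **The law, with the sign of the leading coefficient.** -/
theorem law (hF : IsCont E F) : ∃ (m : ℤ) (l : ℝ), meromorphicOrderAt F 1 = m ∧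
    meromorphicTrailingCoeffAt F 1 = l ∧ l ≠ 0 ∧ l = (-1 : ℝ) ^ (excess F) * |l| ∧
    ∀ γ : ℝ, Real.pi / 2 < γ →
      (fun T : ℝ => rSum E γ T - (m * (Real.log T - Lam γ) - Real.log |l| +
        Real.pi * excess F * Complex.I)) =O[atTop] (fun T : ℝ => 1 / T) := by
  have hex : ∀ γ : ℝ, Real.pi / 2 < γ → ∃ (m : ℤ) (l : ℝ), meromorphicOrderAt F 1 = m ∧
      meromorphicTrailingCoeffAt F 1 = l ∧ l ≠ 0 ∧
      (fun T : ℝ => rSum E γ T - (m * (Real.log T - Lam γ) - Real.log |l| +
        Real.pi * excess F * Complex.I)) =O[atTop] (fun T : ℝ => 1 / T) ∧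
      Tendsto (fun T : ℝ => Complex.exp (rSum E γ T) / (T : ℂ) ^ m) atTop
        (𝓝 (Complex.exp (-(m * Lam γ)) / l)) := fun γ hγ => nf_rot hF hγ
  have hπ := Real.pi_pos
  obtain ⟨m, l, hm, hl, hl0, hO, hT⟩ := hex Real.pi (by linarith)
  refine ⟨m, l, hm, hl, hl0, ?_, ?_⟩
  · have h1 : Tendsto (fun T : ℝ => rSum E Real.pi T - (m * (Real.log T - Lam Real.pi) -
        Real.log |l| + Real.pi * excess F * Complex.I)) atTop (𝓝 0) :=
      hO.trans_tendsto (tendsto_const_nhds.div_atTop tendsto_id)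
    have h2 : Tendsto (fun T : ℝ => Complex.exp (rSum E Real.pi T - (m * (Real.log T -
        Lam Real.pi) - Real.log |l| + Real.pi * excess F * Complex.I)) *
        (Complex.exp (-(m * Lam Real.pi)) * (Complex.exp (-(Real.log |l| : ℂ)) *
          Complex.exp (Real.pi * excess F * Complex.I)))) atTop
        (𝓝 (1 * (Complex.exp (-(m * Lam Real.pi)) * (Complex.exp (-(Real.log |l| : ℂ)) *
          Complex.exp (Real.pi * excess F * Complex.I))))) := by
      refine Tendsto.mul_const _ ?_
      have := (Complex.continuous_exp.tendsto 0).comp h1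
      simpa [Function.comp_def] using this
    rw [one_mul] at h2
    have h3 : Tendsto (fun T : ℝ => Complex.exp (rSum E Real.pi T) / (T : ℂ) ^ m) atTop
        (𝓝 (Complex.exp (-(m * Lam Real.pi)) * (Complex.exp (-(Real.log |l| : ℂ)) *
          Complex.exp (Real.pi * excess F * Complex.I)))) := by
      refine h2.congr' ?_
      filter_upwards [eventually_gt_atTop 0] with T hT0
      have h3 : (T : ℂ) ^ m = Complex.exp (m * Real.log T) := by
        rw [Complex.exp_int_mul, ← Complex.ofReal_exp, Real.exp_log hT0]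
      rw [h3, ← Complex.exp_add, ← Complex.exp_add, ← Complex.exp_add, ← Complex.exp_sub]
      congr 1
      ring
    have h4 := tendsto_nhds_unique h3 hT
    rw [div_eq_mul_inv] at h4
    have h5 := mul_left_cancel₀ (Complex.exp_ne_zero _) h4
    have hab : 0 < |l| := abs_pos.2 hl0
    rw [exp_pi_int, Complex.exp_neg, ← Complex.ofReal_exp, Real.exp_log hab] at h5
    have h6 : |l|⁻¹ * (-1 : ℝ) ^ (excess F) = l⁻¹ := by
      apply Complex.ofReal_injective
      push_cast
      exact h5
    have h7 : (-1 : ℝ) ^ (excess F) * (-1 : ℝ) ^ (excess F) = 1 := by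
      rw [← mul_zpow]
      norm_num
    obtain ⟨s, hs⟩ : ∃ s : ℝ, s = (-1 : ℝ) ^ (excess F) := ⟨_, rfl⟩
    rw [← hs] at h6 h7 ⊢
    have h9 : l * (|l|⁻¹ * s) = 1 := by rw [h6]; exact mul_inv_cancel₀ hl0
    have h10 : s * |l| = l := by
      calc s * |l| = s * |l| * (l * (|l|⁻¹ * s)) := by rw [h9, mul_one]
        _ = l * (s * s) * (|l| * |l|⁻¹) := by ring
        _ = l := by rw [h7, mul_inv_cancel₀ hab.ne', mul_one, mul_one]
    exact h10.symm
  · intro γ hγ
    obtain ⟨m', l', hm', hl', -, hO', -⟩ := hex γ hγ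
    rw [hm] at hm'
    rw [hl] at hl'
    have h1 : m = m' := by exact_mod_cast hm'
    have h2 : l = l' := by exact_mod_cast hl'
    rw [h1, h2]
    exact hO'

/-- **Two angles**: the difference of two rotated sums is bounded. -/
theorem two_angles (hF : IsCont E F) : ∃ m : ℤ, meromorphicOrderAt F 1 = m ∧
    ∀ γ δ : ℝ, Real.pi / 2 < γ → Real.pi / 2 < δ →
      (fun T : ℝ => rSum E γ T - rSum E δ T + m * (Lam γ - Lam δ)) =O[atTop]
        (fun T : ℝ => 1 / T) := by
  obtain ⟨m, l, hm, -, -, -, h⟩ := law hF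
  refine ⟨m, hm, fun γ δ hγ hδ => ?_⟩
  refine ((h γ hγ).sub (h δ hδ)).congr_left fun T => ?_
  ring

theorem two_angles_iff (hF : IsCont E F) {γ δ : ℝ} (hγ : Real.pi / 2 < γ) (hδ : Real.pi / 2 < δ)
    (hne : Lam γ ≠ Lam δ) (r : ℤ) : meromorphicOrderAt F 1 = r ↔
      Tendsto (fun T : ℝ => rSum E γ T - rSum E δ T) atTop (𝓝 (-(r * (Lam γ - Lam δ)))) := by
  obtain ⟨m, hm, h⟩ := two_angles hF
  have h1 : Tendsto (fun T : ℝ => rSum E γ T - rSum E δ T) atTop
      (𝓝 (-(m * (Lam γ - Lam δ)))) := by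
    have h2 := (h γ δ hγ hδ).trans_tendsto
      ((tendsto_const_nhds (x := (1 : ℝ))).div_atTop tendsto_id)
    have h3 := h2.sub_const (m * (Lam γ - Lam δ))
    rw [zero_sub] at h3
    refine h3.congr fun T => ?_
    ring
  constructor
  · intro h2
    rw [hm] at h2
    have h3 : m = r := by exact_mod_cast h2
    rw [← h3]
    exact h1
  · intro h2
    have h3 := tendsto_nhds_unique h1 h2
    have h4 : (m : ℂ) = r := mul_right_cancel₀ (sub_ne_zero.2 hne) (neg_injective h3)
    have h5 : m = r := by exact_mod_cast h4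
    rw [hm, h5]

/-- The order from the real parts. -/
theorem order_iff (hF : IsCont E F) {γ : ℝ} (hγ : Real.pi / 2 < γ) (r : ℤ) :
    meromorphicOrderAt F 1 = r ↔
      Tendsto (fun T : ℝ => (rSum E γ T).re / Real.log T) atTop (𝓝 r) := by
  obtain ⟨m, l, hm, -, -, -, h⟩ := law hF
  have h0 : Tendsto (fun T : ℝ => (rSum E γ T).re / Real.log T) atTop (𝓝 m) := by
    have h1 := (h γ hγ).trans_tendsto ((tendsto_const_nhds (x := (1 : ℝ))).div_atTop tendsto_id)
    have h2 := (Complex.continuous_re.tendsto 0).comp h1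
    rw [Complex.zero_re] at h2
    have h3 : Tendsto (fun T : ℝ => (rSum E γ T).re - m * Real.log T) atTop
        (𝓝 (-(m * (Lam γ).re) - Real.log |l|)) := by
      have h4 := h2.add_const (-(m * (Lam γ).re) - Real.log |l|)
      rw [zero_add] at h4
      refine h4.congr fun T => ?_
      simp only [Function.comp_apply, Complex.sub_re, Complex.add_re, Complex.mul_re,
        Complex.intCast_re, Complex.intCast_im, Complex.ofReal_re, Complex.ofReal_im,
        Complex.I_re, Complex.I_im, Complex.sub_im, Complex.mul_im]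
      ring
    have h5 : Tendsto (fun T : ℝ => ((rSum E γ T).re - m * Real.log T) / Real.log T + m) atTop
        (𝓝 (0 + m)) := (h3.div_atTop Real.tendsto_log_atTop).add_const _
    rw [zero_add] at h5
    refine h5.congr' ?_
    filter_upwards [eventually_gt_atTop 1] with T hT
    have h6 := Real.log_pos hT
    field_simp
    ring
  constructor
  · intro h2
    rw [hm] at h2
    have h3 : m = r := by exact_mod_cast h2
    rw [← h3]
    exact h0
  · intro h2
    have h3 := tendsto_nhds_unique h0 h2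
    have h5 : m = r := by exact_mod_cast h3
    rw [hm, h5]

end Pool.Agent.U552.Rot
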